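import Mathlib
import Pool.Agent.P.MP_a6ddc5_al.Main

/-!
Word length on a compactly generated group, representation of positive forms on the dual cone
by points of a weakly complete cone, and the upper bound: a group of growth rate at most `r`
has `r`-quasi-fixed vectors in cones.
-/

set_option autoImplicit false

open Filter Topology MeasureTheory Pointwise Set

namespace Pool.Agent.P.MP_a6ddc5_al.LC

universe u

/-- Quasi-fixed vectors for representations whose bounded orbit map is weakly continuous. -/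
def QF (G : Type u) [Group G] [TopologicalSpace G] (K : Set G) (r : ℝ) : Prop :=
  ∀ (E : Type u) [AddCommGroup E] [Module ℝ E] [TopologicalSpace E] [IsTopologicalAddGroup E]
    [ContinuousSMul ℝ E] [LocallyConvexSpace ℝ E] [T2Space E]
    (C : ConvexCone ℝ E) (ρ : G →* (E →L[ℝ] E)),
    (C : Set E) ∩ (-(C : Set E)) = {0} →
    @IsComplete E (wU E) (C : Set E) →
    (∀ g : G, ∀ x ∈ C, ρ g x ∈ C) →
    (∃ x ∈ C, x ≠ 0 ∧ Bornology.IsVonNBounded ℝ (Set.range fun g : G => ρ g x) ∧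
      ∀ l : E →L[ℝ] ℝ, Continuous fun g : G => l (ρ g x)) →
    (∃ φ : E →L[ℝ] ℝ, ∀ l : E →L[ℝ] ℝ, ∃ (n : ℕ) (g : Fin n → G), ∀ x ∈ C,
      l x ≤ ∑ i, φ (ρ (g i)⁻¹ x) ∧ -l x ≤ ∑ i, φ (ρ (g i)⁻¹ x)) →
    ∃ y ∈ C, y ≠ 0 ∧ ∀ k ∈ K, r • y - ρ k y ∈ C

/-- Quasi-fixed vectors for representations whose bounded orbit map is uniformly continuous
for the left and the right uniform structure of the group. -/
def QFU (G : Type u) [Group G] [TopologicalSpace G] (K : Set G) (r : ℝ) : Prop :=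
  ∀ (E : Type u) [AddCommGroup E] [Module ℝ E] [TopologicalSpace E] [IsTopologicalAddGroup E]
    [ContinuousSMul ℝ E] [LocallyConvexSpace ℝ E] [T2Space E]
    (C : ConvexCone ℝ E) (ρ : G →* (E →L[ℝ] E)),
    (C : Set E) ∩ (-(C : Set E)) = {0} →
    @IsComplete E (wU E) (C : Set E) →
    (∀ g : G, ∀ x ∈ C, ρ g x ∈ C) →
    (∃ x ∈ C, x ≠ 0 ∧ Bornology.IsVonNBounded ℝ (Set.range fun g : G => ρ g x) ∧
      ∀ V ∈ 𝓝 (0 : E), ∃ U ∈ 𝓝 (1 : G), ∀ a ∈ U, ∀ g : G,
        ρ (a * g) x - ρ g x ∈ V ∧ ρ (g * a) x - ρ g x ∈ V) →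
    (∃ φ : E →L[ℝ] ℝ, ∀ l : E →L[ℝ] ℝ, ∃ (n : ℕ) (g : Fin n → G), ∀ x ∈ C,
      l x ≤ ∑ i, φ (ρ (g i)⁻¹ x) ∧ -l x ≤ ∑ i, φ (ρ (g i)⁻¹ x)) →
    ∃ y ∈ C, y ≠ 0 ∧ ∀ k ∈ K, r • y - ρ k y ∈ C

/-! ### Word length -/

section Len

variable {G : Type u} [Group G]

/-- A compact symmetric generating neighbourhood of the identity. -/
structure Good [TopologicalSpace G] (K : Set G) : Prop where
  cpt : IsCompact K
  symm : K⁻¹ = K
  nhd : K ∈ 𝓝 (1 : G)
  gen : ∀ g, ∃ n : ℕ, g ∈ K ^ n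

/-- word length with respect to `K` -/
noncomputable def len (K : Set G) (g : G) : ℕ := sInf {n : ℕ | g ∈ K ^ n}

variable [TopologicalSpace G] {K : Set G}

theorem Good.one_mem (hK : Good K) : (1 : G) ∈ K := mem_of_mem_nhds hK.nhd

theorem Good.mono (hK : Good K) {a b : ℕ} (h : a ≤ b) : K ^ a ⊆ K ^ b :=
  Set.pow_subset_pow_right hK.one_mem h

theorem Good.mem_len (hK : Good K) (g : G) : g ∈ K ^ len K g :=
  Nat.sInf_mem (s := {n : ℕ | g ∈ K ^ n}) (hK.gen g)

theorem Good.len_le_iff (hK : Good K) {g : G} {n : ℕ} : len K g ≤ n ↔ g ∈ K ^ n :=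
  ⟨fun h => hK.mono h (hK.mem_len g), fun h => Nat.sInf_le h⟩

theorem Good.len_mul (hK : Good K) (g h : G) : len K (g * h) ≤ len K g + len K h := by
  rw [hK.len_le_iff, pow_add]
  exact Set.mul_mem_mul (hK.mem_len g) (hK.mem_len h)

theorem Good.pow_symm (hK : Good K) (n : ℕ) : (K ^ n)⁻¹ = K ^ n := by
  rw [← _root_.inv_pow, hK.symm]

theorem Good.len_inv (hK : Good K) (g : G) : len K g⁻¹ = len K g := by
  have : ∀ g : G, len K g⁻¹ ≤ len K g := fun g => by
    rw [hK.len_le_iff, ← hK.pow_symm, Set.inv_mem_inv]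
    exact hK.mem_len g
  exact le_antisymm (this g) (by simpa using this g⁻¹)

theorem Good.len_le_one (hK : Good K) {g : G} : len K g ≤ 1 ↔ g ∈ K := by
  rw [hK.len_le_iff, pow_one]

theorem Good.exists_split (hK : Good K) (g : G) (a : ℕ) (ha : a ≤ len K g) :
    ∃ h v : G, len K h + a ≤ len K g ∧ len K v ≤ a ∧ g = h * v := by
  have h1 := hK.mem_len g
  obtain ⟨b, hb⟩ := Nat.exists_eq_add_of_le' ha
  rw [hb, pow_add] at h1
  obtain ⟨h, hh, v, hv, rfl⟩ := h1
  exact ⟨h, v, by have := hK.len_le_iff.2 hh; omega, hK.len_le_iff.2 hv, rfl⟩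

theorem Good.isCompact_pow [IsTopologicalGroup G] (hK : Good K) (n : ℕ) : IsCompact (K ^ n) := by
  induction n with
  | zero => rw [pow_zero]; exact isCompact_singleton
  | succ n ih => rw [pow_succ]; exact ih.mul hK.cpt

variable [IsTopologicalGroup G] [T2Space G] [MeasurableSpace G] [BorelSpace G]

theorem Good.measurableSet_pow (hK : Good K) (n : ℕ) : MeasurableSet (K ^ n) :=
  (hK.isCompact_pow n).isClosed.measurableSet

theorem Good.measurable_len (hK : Good K) : Measurable (len K) := by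
  refine measurable_of_Iic fun n => ?_
  have : len K ⁻¹' Iic n = K ^ n := by
    ext g
    simp [hK.len_le_iff]
  rw [this]
  exact hK.measurableSet_pow n

end Len

/-! ### Positive forms on the dual cone are points of the cone -/

theorem exists_rep {E : Type u} [AddCommGroup E] [Module ℝ E] [TopologicalSpace E]
    (C : ConvexCone ℝ E) (h0 : (0 : E) ∈ C) (hc : @IsComplete E (wU E) (C : Set E))
    (L : (E →L[ℝ] ℝ) →ₗ[ℝ] ℝ) (hL : ∀ l : E →L[ℝ] ℝ, (∀ x ∈ C, 0 ≤ l x) → 0 ≤ L l) :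
    ∃ y ∈ C, ∀ l : E →L[ℝ] ℝ, l y = L l := by
  let J : E →ₗ[ℝ] ((E →L[ℝ] ℝ) → ℝ) := LinearMap.pi fun l => (l : E →ₗ[ℝ] ℝ)
  have hJ : ∀ c l, J c l = l c := fun _ _ => rfl
  let p : (E →L[ℝ] ℝ) → ℝ := fun l => L l
  have hp : p ∈ closure (J '' (C : Set E)) := by
    by_contra hn
    obtain ⟨f, t, hf1, hf2⟩ := geometric_hahn_banach_point_closed
      ((C.convex.linear_image J).closure) isClosed_closure hn
    have ht : t < 0 := by
      have := hf2 _ (subset_closure ⟨0, h0, rfl⟩)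
      simpa using this
    have hnn : ∀ c ∈ C, 0 ≤ f (J c) := by
      intro c hcC
      by_contra hneg
      push Not at hneg
      have hs : 0 < t / f (J c) := div_pos_of_neg_of_neg ht hneg
      have := hf2 _ (subset_closure ⟨(t / f (J c)) • c, C.smul_mem hs hcC, rfl⟩)
      rw [map_smul, map_smul, smul_eq_mul, div_mul_cancel₀ _ hneg.ne] at this
      exact lt_irrefl _ this
    have hl : (f : ((E →L[ℝ] ℝ) → ℝ) →ₗ[ℝ] ℝ) ∈ Submodule.span ℝ
        (Set.range fun l : E →L[ℝ] ℝ =>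
          (LinearMap.proj l : ((E →L[ℝ] ℝ) → ℝ) →ₗ[ℝ] ℝ)) :=
      (LinearMap.mem_span_iff_continuous _).2 f.continuous
    have key : ∀ f' ∈ Submodule.span ℝ (Set.range fun l : E →L[ℝ] ℝ =>
          (LinearMap.proj l : ((E →L[ℝ] ℝ) → ℝ) →ₗ[ℝ] ℝ)),
        ∃ l : E →L[ℝ] ℝ, (∀ c, l c = f' (J c)) ∧ L l = f' p := by
      intro f' hf'
      induction hf' using Submodule.span_induction with
      | mem f' h =>
        obtain ⟨l, rfl⟩ := h
        exact ⟨l, fun c => rfl, rfl⟩
      | zero => exact ⟨0, fun c => rfl, by simp⟩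
      | add f1 f2 _ _ h1 h2 =>
        obtain ⟨l1, h1, h1'⟩ := h1
        obtain ⟨l2, h2, h2'⟩ := h2
        exact ⟨l1 + l2, fun c => by simp [h1, h2], by simp [h1', h2']⟩
      | smul a f1 _ h1 =>
        obtain ⟨l1, h1, h1'⟩ := h1
        exact ⟨a • l1, fun c => by simp [h1], by simp [h1']⟩
    obtain ⟨l, hl1, hl2⟩ := key _ hl
    have := hL l fun c hcC => by rw [hl1]; exact hnn c hcC
    rw [hl2] at this
    have h3 : f p < 0 := hf1.trans ht
    exact absurd this (not_le.2 h3)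
  let F : Filter E := comap J (𝓝 p) ⊓ 𝓟 (C : Set E)
  have hF : F.NeBot := by
    have h1 : (map J F).NeBot := by
      rw [Filter.push_pull', map_principal]
      exact mem_closure_iff_clusterPt.1 hp
    exact h1.of_map
  have hten : ∀ l : E →L[ℝ] ℝ, Tendsto l F (𝓝 (L l)) := by
    intro l
    have h1 : Tendsto J F (𝓝 p) := tendsto_comap.mono_left inf_le_left
    exact ((continuous_apply l).tendsto p).comp h1
  have hcau : @Cauchy E (wU E) F := by
    refine ⟨hF, ?_⟩
    unfold wU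
    rw [iInf_uniformity]
    refine le_iInf fun l => ?_
    rw [uniformity_comap, ← map_le_iff_le_comap]
    have := (hten l).cauchy_map
    have h2 := this.2
    rw [prod_map_map_eq] at h2
    exact h2
  obtain ⟨y, hy, hle⟩ := hc F hcau inf_le_right
  refine ⟨y, hy, fun l => ?_⟩
  have hcont : @Continuous E ℝ (wU E).toTopologicalSpace _ l := by
    refine @UniformContinuous.continuous E ℝ (wU E) _ l ?_
    exact uniformContinuous_iff_le_comap.2 (iInf_le _ l)
  have h1 : Tendsto l F (𝓝 (l y)) :=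
    (@Continuous.tendsto E ℝ (wU E).toTopologicalSpace _ l hcont y).mono_left hle
  exact tendsto_nhds_unique h1 (hten l)

/-! ### The upper bound -/

section Upper

variable {G : Type u} [Group G] [TopologicalSpace G] [IsTopologicalGroup G] [T2Space G]
  [MeasurableSpace G] [BorelSpace G] {K : Set G}

theorem integrable_weight (hK : Good K) (m : Measure G) [m.IsHaarMeasure] {A s t : ℝ}
    (hs : 0 < s) (hst : s < t) (hA : ∀ n, (m (K ^ n)).toReal ≤ A * s ^ n) :
    Integrable (fun g => t⁻¹ ^ len K g) m := by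
  have ht : 0 < t := hs.trans hst
  refine ⟨(measurable_const.pow hK.measurable_len).aestronglyMeasurable, ?_⟩
  rw [hasFiniteIntegral_iff_ofReal (Eventually.of_forall fun g => by positivity)]
  have hA0 : 0 ≤ A := by
    have := hA 0
    simp only [pow_zero, mul_one] at this
    exact ENNReal.toReal_nonneg.trans this
  have hsum : Summable fun n : ℕ => A * (s / t) ^ n :=
    (summable_geometric_of_lt_one (by positivity) ((div_lt_one ht).2 hst)).mul_left A
  calc ∫⁻ g, ENNReal.ofReal (t⁻¹ ^ len K g) ∂m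
      ≤ ∫⁻ g, ∑' n : ℕ, (K ^ n).indicator (fun _ => ENNReal.ofReal (t⁻¹ ^ n)) g ∂m := by
        refine lintegral_mono fun g => ?_
        refine le_trans ?_ (ENNReal.le_tsum (len K g))
        rw [Set.indicator_of_mem (hK.mem_len g)]
    _ = ∑' n : ℕ, ENNReal.ofReal (t⁻¹ ^ n) * m (K ^ n) := by
        rw [lintegral_tsum fun n =>
          (measurable_const.indicator (hK.measurableSet_pow n)).aemeasurable]
        refine tsum_congr fun n => ?_
        rw [lintegral_indicator_const (hK.measurableSet_pow n)]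
    _ ≤ ∑' n : ℕ, ENNReal.ofReal (A * (s / t) ^ n) := by
        refine ENNReal.tsum_le_tsum fun n => ?_
        rw [← ENNReal.ofReal_toReal (hK.isCompact_pow n).measure_lt_top.ne,
          ← ENNReal.ofReal_mul (by positivity)]
        refine ENNReal.ofReal_le_ofReal ?_
        calc t⁻¹ ^ n * (m (K ^ n)).toReal ≤ t⁻¹ ^ n * (A * s ^ n) := by
              gcongr
              exact hA n
          _ = A * (s / t) ^ n := by rw [div_eq_mul_inv, mul_pow]; ring
    _ < ⊤ := by
        rw [← ENNReal.ofReal_tsum_of_nonneg (fun n => by positivity) hsum]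
        exact ENNReal.ofReal_lt_top

theorem qf_of_growth (hK : Good K) (m : Measure G) [m.IsHaarMeasure] {r : ℝ} (hr : 1 ≤ r)
    (hgr : ∀ s, r < s → ∃ A : ℝ, ∀ n, (m (K ^ n)).toReal ≤ A * s ^ n) : QF G K r := by
  intro E _ _ _ _ _ _ _ C ρ hprop hc hinv ⟨x, hxC, hx0, hxb, hxc⟩ ⟨φ, hφ⟩
  have h0 : (0 : E) ∈ C := by
    have : (0 : E) ∈ (C : Set E) ∩ (-(C : Set E)) := by rw [hprop]; rfl
    exact this.1
  obtain ⟨n0, g0, hg0⟩ := hφ φ
  let ψ : E →L[ℝ] ℝ := ∑ i, φ.comp (ρ (g0 i)⁻¹)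
  have hψ : ∀ c, ψ c = ∑ i, φ (ρ (g0 i)⁻¹ c) := fun c => by simp [ψ]
  have hψ0 : ∀ c ∈ C, 0 ≤ ψ c := fun c hcC => by
    have := hg0 c hcC
    rw [hψ]
    linarith [this.1, this.2]
  have hdom : ∀ l : E →L[ℝ] ℝ, ∃ (n : ℕ) (g : Fin n → G), ∀ c ∈ C,
      l c ≤ ∑ i, ψ (ρ (g i) c) ∧ -l c ≤ ∑ i, ψ (ρ (g i) c) := by
    intro l
    obtain ⟨n, g, hg⟩ := hφ l
    refine ⟨n, fun i => (g i)⁻¹, fun c hcC => ?_⟩
    have h1 : ∑ i, φ (ρ (g i)⁻¹ c) ≤ ∑ i, ψ (ρ (g i)⁻¹ c) :=
      Finset.sum_le_sum fun i _ => by rw [hψ]; exact (hg0 _ (hinv _ _ hcC)).1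
    exact ⟨(hg c hcC).1.trans h1, (hg c hcC).2.trans h1⟩
  have hbd : ∀ l : E →L[ℝ] ℝ, ∃ M, ∀ g, ‖l (ρ g x)‖ ≤ M := by
    intro l
    have h1 := hxb.image l
    rw [NormedSpace.isVonNBounded_iff, isBounded_iff_forall_norm_le] at h1
    obtain ⟨M, hM⟩ := h1
    exact ⟨M, fun g => hM _ ⟨_, ⟨g, rfl⟩, rfl⟩⟩
  have hw : ∀ t, r < t → Integrable (fun g => t⁻¹ ^ len K g) m := by
    intro t ht
    obtain ⟨s, hs1, hs2⟩ := exists_between ht
    obtain ⟨A, hA⟩ := hgr s hs1
    exact integrable_weight hK m (by linarith) hs2 hA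
  have hint : ∀ t, r < t → ∀ l : E →L[ℝ] ℝ,
      Integrable (fun g => t⁻¹ ^ len K g * l (ρ g x)) m := by
    intro t ht l
    obtain ⟨M, hM⟩ := hbd l
    exact (hw t ht).mul_bdd (hxc l).aestronglyMeasurable (Eventually.of_forall hM)
  let I : ℝ → (E →L[ℝ] ℝ) → ℝ := fun t l => ∫ g, t⁻¹ ^ len K g * l (ρ g x) ∂m
  have hIadd : ∀ t, r < t → ∀ l l', I t (l + l') = I t l + I t l' := by
    intro t ht l l'
    simp only [I, add_apply, mul_add]
    exact integral_add (hint t ht l) (hint t ht l')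
  have hIsmul : ∀ t (a : ℝ) l, I t (a • l) = a * I t l := by
    intro t a l
    simp only [I, smul_apply, smul_eq_mul]
    rw [← integral_const_mul]
    congr 1
    funext g
    ring
  have hIpos : ∀ t, r < t → ∀ l : E →L[ℝ] ℝ, (∀ c ∈ C, 0 ≤ l c) → 0 ≤ I t l := by
    intro t ht l hl
    have : 0 < t := by linarith
    exact integral_nonneg fun g => mul_nonneg (by positivity) (hl _ (hinv _ _ hxC))
  have hIshift : ∀ t, r < t → ∀ l : E →L[ℝ] ℝ, (∀ c ∈ C, 0 ≤ l c) → ∀ γ : G,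
      I t (l.comp (ρ γ)) ≤ t ^ len K γ * I t l := by
    intro t ht l hl γ
    have ht1 : 1 ≤ t := by linarith
    have ht0 : 0 < t := by linarith
    have h2 : t ^ len K γ * I t l
        = ∫ g, t ^ len K γ * (t⁻¹ ^ len K (γ * g) * l (ρ (γ * g) x)) ∂m := by
      rw [integral_const_mul]
      congr 1
      exact (integral_mul_left_eq_self (fun g => t⁻¹ ^ len K g * l (ρ g x)) γ).symm
    rw [h2]
    refine integral_mono (hint t ht _) (((hint t ht l).comp_mul_left γ).const_mul _) fun g => ?_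
    simp only [ContinuousLinearMap.comp_apply]
    have h3 : ρ γ (ρ g x) = ρ (γ * g) x := by rw [map_mul]; rfl
    rw [h3, ← mul_assoc]
    refine mul_le_mul_of_nonneg_right ?_ (hl _ (hinv _ _ hxC))
    have h4 : t⁻¹ ^ (len K γ + len K g) ≤ t⁻¹ ^ len K (γ * g) :=
      pow_le_pow_of_le_one (by positivity) (inv_le_one_of_one_le₀ ht1) (hK.len_mul γ g)
    calc t⁻¹ ^ len K g = t ^ len K γ * t⁻¹ ^ (len K γ + len K g) := by
          rw [pow_add, ← mul_assoc, ← mul_pow, mul_inv_cancel₀ ht0.ne', one_pow, one_mul]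
      _ ≤ _ := by gcongr
  have hZ : ∀ t, r < t → 0 < I t ψ := by
    intro t ht
    have ht0 : 0 < t := by linarith
    obtain ⟨l, hl⟩ := SeparatingDual.exists_ne_zero (R := ℝ) hx0
    obtain ⟨n, g, hg⟩ := hdom l
    have h1 : ∃ γ, 0 < ψ (ρ γ x) := by
      by_contra hn
      push Not at hn
      have h2 : ∑ i, ψ (ρ (g i) x) ≤ 0 := Finset.sum_nonpos fun i _ => hn _
      have := hg x hxC
      exact hl (by linarith [this.1, this.2])
    obtain ⟨γ, hγ⟩ := h1
    rw [integral_pos_iff_support_of_nonneg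
      (fun g => mul_nonneg (by positivity) (hψ0 _ (hinv _ _ hxC))) (hint t ht ψ)]
    refine lt_of_lt_of_le ((isOpen_lt continuous_const (hxc ψ)).measure_pos m ⟨γ, hγ⟩)
      (measure_mono fun g hg => ?_)
    exact (mul_pos (by positivity) hg).ne'
  let tt : ℕ → ℝ := fun n => r + 1 / ((n : ℝ) + 1)
  have htt : ∀ n, r < tt n := fun n => by
    have : (0 : ℝ) < 1 / ((n : ℝ) + 1) := by positivity
    simp only [tt]
    linarith
  have htt1 : ∀ n, tt n ≤ r + 1 := fun n => by
    have : 1 / ((n : ℝ) + 1) ≤ 1 := by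
      rw [div_le_one (by positivity)]
      linarith [(Nat.cast_nonneg n : (0 : ℝ) ≤ n)]
    simp only [tt]
    linarith
  let 𝒰 : Ultrafilter ℕ := hyperfilter ℕ
  have httlim : Tendsto tt 𝒰 (𝓝 r) := by
    have h1 : Tendsto tt atTop (𝓝 (r + 0)) :=
      tendsto_const_nhds.add tendsto_one_div_add_atTop_nhds_zero_nat
    rw [add_zero] at h1
    exact h1.mono_left (hyperfilter_le_cofinite.trans_eq Nat.cofinite_eq_atTop)
  have hlim : ∀ l : E →L[ℝ] ℝ, ∃ a, Tendsto (fun n => I (tt n) l / I (tt n) ψ) 𝒰 (𝓝 a) := by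
    intro l
    obtain ⟨n, g, hg⟩ := hdom l
    let B : ℝ := ∑ i, (r + 1) ^ len K (g i)
    have hsum : ∀ k, I (tt k) (∑ i, ψ.comp (ρ (g i))) ≤ B * I (tt k) ψ := by
      intro k
      have h1 : ∀ s : Finset (Fin n), I (tt k) (∑ i ∈ s, ψ.comp (ρ (g i)))
          ≤ (∑ i ∈ s, (r + 1) ^ len K (g i)) * I (tt k) ψ := by
        intro s
        induction s using Finset.induction_on with
        | empty => simp [I]
        | insert i s hi ih =>
          rw [Finset.sum_insert hi, Finset.sum_insert hi, hIadd _ (htt k), add_mul]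
          refine add_le_add ((hIshift _ (htt k) ψ hψ0 _).trans ?_) ih
          refine mul_le_mul_of_nonneg_right ?_ (hZ _ (htt k)).le
          exact pow_le_pow_left₀ (by linarith [htt k]) (htt1 k) _
      exact h1 _
    have hmem : ∀ k, I (tt k) l / I (tt k) ψ ∈ Icc (-B) B := by
      intro k
      have h1 := hIpos _ (htt k) ((∑ i, ψ.comp (ρ (g i))) + (-1 : ℝ) • l) fun c hcC => by
        have := (hg c hcC).1
        simp only [add_apply, sum_apply,
          ContinuousLinearMap.comp_apply, smul_apply, smul_eq_mul]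
        linarith
      have h2 := hIpos _ (htt k) ((∑ i, ψ.comp (ρ (g i))) + l) fun c hcC => by
        have := (hg c hcC).2
        simp only [add_apply, sum_apply,
          ContinuousLinearMap.comp_apply]
        linarith
      rw [hIadd _ (htt k)] at h1 h2
      rw [hIsmul] at h1
      have h3 := hsum k
      constructor
      · rw [le_div_iff₀ (hZ _ (htt k))]
        linarith
      · rw [div_le_iff₀ (hZ _ (htt k))]
        linarith
    obtain ⟨a, -, ha⟩ := (isCompact_Icc (a := -B) (b := B)).ultrafilter_le_nhds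
      (𝒰.map fun k => I (tt k) l / I (tt k) ψ) (by
        rw [le_principal_iff]
        exact Filter.mem_map.2 (Eventually.of_forall hmem))
    exact ⟨a, ha⟩
  choose L0 hL0 using hlim
  let L : (E →L[ℝ] ℝ) →ₗ[ℝ] ℝ :=
    { toFun := L0
      map_add' := fun l l' => by
        refine tendsto_nhds_unique (hL0 (l + l')) ?_
        refine ((hL0 l).add (hL0 l')).congr fun k => ?_
        rw [hIadd _ (htt k), add_div]
      map_smul' := fun a l => by
        refine tendsto_nhds_unique (hL0 (a • l)) ?_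
        refine ((hL0 l).const_mul a).congr fun k => ?_
        rw [hIsmul, mul_div_assoc] }
  have hLpos : ∀ l : E →L[ℝ] ℝ, (∀ c ∈ C, 0 ≤ l c) → 0 ≤ L l := fun l hl =>
    ge_of_tendsto' (hL0 l) fun k => div_nonneg (hIpos _ (htt k) l hl) (hZ _ (htt k)).le
  have hLψ : L ψ = 1 := by
    refine tendsto_nhds_unique (hL0 ψ) ?_
    refine tendsto_const_nhds.congr fun k => ?_
    rw [div_self (hZ _ (htt k)).ne']
  have hLshift : ∀ k ∈ K, ∀ l : E →L[ℝ] ℝ, (∀ c ∈ C, 0 ≤ l c) →
      L (l.comp (ρ k)) ≤ r * L l := by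
    intro k hk l hl
    refine le_of_tendsto_of_tendsto' (hL0 _) (httlim.mul (hL0 l)) fun n => ?_
    rw [← mul_div_assoc]
    refine div_le_div_of_nonneg_right ((hIshift _ (htt n) l hl k).trans ?_) (hZ _ (htt n)).le
    refine mul_le_mul_of_nonneg_right ?_ (hIpos _ (htt n) l hl)
    calc tt n ^ len K k ≤ tt n ^ 1 :=
          pow_le_pow_right₀ (by linarith [htt n]) (hK.len_le_one.2 hk)
      _ = tt n := pow_one _
  obtain ⟨y, hyC, hy⟩ := exists_rep C h0 hc L hLpos
  refine ⟨y, hyC, fun h => ?_, fun k hk => ?_⟩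
  · have := hy ψ
    rw [h, map_zero, hLψ] at this
    exact zero_ne_one this
  · let L' : (E →L[ℝ] ℝ) →ₗ[ℝ] ℝ :=
      { toFun := fun l => l (r • y - ρ k y)
        map_add' := fun _ _ => rfl
        map_smul' := fun _ _ => rfl }
    obtain ⟨z, hzC, hz⟩ := exists_rep C h0 hc L' fun l hl => by
      have h1 := hLshift k hk l hl
      rw [← hy, ← hy] at h1
      simp only [L', LinearMap.coe_mk, AddHom.coe_mk, map_sub, map_smul, smul_eq_mul]
      simp only [ContinuousLinearMap.comp_apply] at h1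
      linarith
    have : z = r • y - ρ k y := (SeparatingDual.eq_iff_forall_dual_eq (R := ℝ)).2 hz
    rwa [← this]

omit [T2Space G] [MeasurableSpace G] [BorelSpace G] in
theorem qfu_of_qf {r : ℝ} (h : QF G K r) : QFU G K r := by
  intro E _ _ _ _ _ _ _ C ρ hprop hc hinv ⟨x, hxC, hx0, hxb, hxc⟩ hφ
  refine h E C ρ hprop hc hinv ⟨x, hxC, hx0, hxb, fun l => l.continuous.comp ?_⟩ hφ
  rw [continuous_iff_continuousAt]
  intro g
  have h1 : Tendsto (fun a : G => ρ (a * g) x - ρ g x) (𝓝 1) (𝓝 0) := by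
    intro V hV
    obtain ⟨U, hU, hUV⟩ := hxc V hV
    exact Filter.mem_map.2 (mem_of_superset hU fun a ha => (hUV a ha g).1)
  have h2 : Tendsto (fun a : G => a * g⁻¹) (𝓝 g) (𝓝 1) := by
    have : Continuous fun a : G => a * g⁻¹ := by fun_prop
    simpa using this.tendsto g
  have h3 := (h1.comp h2).add_const (ρ g x)
  rw [zero_add] at h3
  refine h3.congr fun a => ?_
  simp only [Function.comp_apply, inv_mul_cancel_right, sub_add_cancel]

end Upper

end Pool.Agent.P.MP_a6ddc5_al.LC
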