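import Mathlib
import Pool.Agent.P.MP_a6ddc5_al.LC.Upper

/-!
Finite measurable partitions, uniform continuity of bump functions, and the kernel that turns
a measurable flow along finitely many right translations into a continuous one.
-/

set_option autoImplicit false

open Filter Topology MeasureTheory Pointwise Set
open scoped ENNReal

namespace Pool.Agent.P.MP_a6ddc5_al.LC

universe u

theorem exists_disj {α : Type*} [MeasurableSpace α] {n : ℕ} (c : Fin n → Set α)
    (hc : ∀ i, MeasurableSet (c i)) :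
    ∃ P : Fin n → Set α, (∀ i, MeasurableSet (P i)) ∧ (∀ i, P i ⊆ c i) ∧
      (∀ i j, i ≠ j → Disjoint (P i) (P j)) ∧ ∀ i, ∀ h ∈ c i, ∃ j, h ∈ P j := by
  classical
  refine ⟨fun i => c i ∩ ⋂ j, ⋂ (_ : j < i), (c j)ᶜ, fun i => ?_, fun i => inter_subset_left,
    fun i j hij => ?_, fun i h hh => ?_⟩
  · exact (hc i).inter (MeasurableSet.iInter fun j => MeasurableSet.iInter fun _ => (hc j).compl)
  · rw [Set.disjoint_left]
    rintro h ⟨h1, h2⟩ ⟨h3, h4⟩
    simp only [mem_iInter, mem_compl_iff] at h2 h4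
    rcases lt_or_gt_of_ne hij with h | h
    · exact h4 i h h1
    · exact h2 j h h3
  · obtain ⟨j, hj, hmin⟩ := (Finset.univ.filter fun j => h ∈ c j).exists_min_image id
      ⟨i, by simpa using hh⟩
    refine ⟨j, by simpa using hj, ?_⟩
    simp only [mem_iInter, mem_compl_iff]
    intro k hk hkc
    have := hmin k (by simpa using hkc)
    exact absurd hk (not_lt.2 this)

theorem sum_indicator_le {α : Type*} {n : ℕ} (P : Fin n → Set α)
    (hP : ∀ i j, i ≠ j → Disjoint (P i) (P j)) (f : α → ℝ≥0∞) (h : α) :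
    ∑ i, (P i).indicator f h ≤ f h := by
  by_cases hh : ∃ i, h ∈ P i
  · obtain ⟨i, hi⟩ := hh
    rw [Finset.sum_eq_single i]
    · exact Set.indicator_le_self _ _ _
    · intro j _ hj
      exact Set.indicator_of_notMem (Set.disjoint_left.1 (hP i j hj.symm) hi) _
    · simp
  · push Not at hh
    simp [Set.indicator_of_notMem (hh _)]

theorem exists_fin_cover {G : Type u} [TopologicalSpace G] {Q : Set G} (hQ : IsCompact Q)
    (U : G → Set G) (hU : ∀ a ∈ Q, U a ∈ 𝓝 a) :
    ∃ (n : ℕ) (s : Fin n → G), (∀ i, s i ∈ Q) ∧ ∀ v ∈ Q, ∃ i, v ∈ U (s i) := by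
  obtain ⟨t, ht1, ht2⟩ := hQ.elim_nhds_subcover U hU
  refine ⟨t.card, fun i => (t.equivFin.symm i : G), fun i => ht1 _ (t.equivFin.symm i).2,
    fun v hv => ?_⟩
  obtain ⟨a, ha, hva⟩ := mem_iUnion₂.1 (ht2 hv)
  exact ⟨t.equivFin ⟨a, ha⟩, by simpa using hva⟩

variable {G : Type u} [Group G] [TopologicalSpace G] [IsTopologicalGroup G] {K : Set G}

theorem Good.right_nhds (hK : Good K) (a : G) : {v | v * a⁻¹ ∈ K} ∈ 𝓝 a := by
  have : Continuous fun v : G => v * a⁻¹ := by fun_prop
  exact this.continuousAt.preimage_mem_nhds (by simpa using hK.nhd)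

theorem Good.left_nhds (hK : Good K) (a : G) : {v | a⁻¹ * v ∈ K} ∈ 𝓝 a := by
  have : Continuous fun v : G => a⁻¹ * v := by fun_prop
  exact this.continuousAt.preimage_mem_nhds (by simpa using hK.nhd)

theorem Good.pow_subset_interior (hK : Good K) (n : ℕ) : K ^ n ⊆ interior (K ^ (n + 1)) := by
  intro a ha
  rw [mem_interior_iff_mem_nhds]
  refine mem_of_superset (hK.left_nhds a) fun v hv => ?_
  rw [pow_succ]
  exact ⟨a, ha, a⁻¹ * v, hv, by simp⟩

/-- uniform continuity of a continuous function that vanishes outside `K ^ 3` -/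
theorem Good.unif (hK : Good K) {f : G → ℝ} (hf : Continuous f)
    (hf0 : ∀ v, v ∉ K ^ 3 → f v = 0) {ε : ℝ} (hε : 0 < ε) :
    ∀ᶠ a in 𝓝 (1 : G), ∀ v, |f (a⁻¹ * v) - f v| ≤ (K ^ 4).indicator (fun _ => ε) v := by
  have h1 : ∀ᶠ a in 𝓝 (1 : G), ∀ v ∈ K ^ 4, |f (a⁻¹ * v) - f v| ≤ ε := by
    refine (hK.isCompact_pow 4).eventually_forall_of_forall_eventually fun v _ => ?_
    have hc : Continuous fun z : G × G => |f (z.1⁻¹ * z.2) - f z.2| := by fun_prop
    have h2 : Tendsto (fun z : G × G => |f (z.1⁻¹ * z.2) - f z.2|) (𝓝 (1, v)) (𝓝 0) := by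
      simpa using hc.tendsto (1, v)
    exact h2.eventually (ge_mem_nhds hε)
  filter_upwards [h1, hK.nhd] with a ha haK v
  by_cases hv : v ∈ K ^ 4
  · rw [Set.indicator_of_mem hv]
    exact ha v hv
  · rw [Set.indicator_of_notMem hv, hf0 v fun h => hv (hK.mono (by norm_num) h), hf0]
    · simp
    · intro h
      apply hv
      rw [← hK.len_le_iff] at h ⊢
      have h1 := hK.len_mul a (a⁻¹ * v)
      have h2 := hK.len_le_one.2 haK
      rw [mul_inv_cancel_left] at h1
      omega

variable [T2Space G] [LocallyCompactSpace G] [SecondCountableTopology G]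
  [MeasurableSpace G] [BorelSpace G]

omit [T2Space G] in
theorem exists_mod (m : Measure G) [m.IsHaarMeasure] (a : G) :
    ∃ d : ℝ≥0∞, d ≠ 0 ∧ d ≠ ⊤ ∧ (∀ F : G → ℝ≥0∞, Measurable F →
      ∫⁻ v, F (v * a) ∂m = d * ∫⁻ v, F v ∂m) ∧
      ∀ A, MeasurableSet A → m {v | v * a ∈ A} = d * m A := by
  have h := Measure.map_right_mul_eq_modularCharacterFun_smul m a
  refine ⟨(Measure.modularCharacterFun a : ℝ≥0∞),
    by simpa using (Measure.modularCharacterFun_pos a).ne', ENNReal.coe_ne_top,
    fun F hF => ?_, fun A hA => ?_⟩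
  · rw [← lintegral_map hF (measurable_mul_const a), h, lintegral_smul_measure]
    rfl
  · have := Measure.map_apply (μ := m) (measurable_mul_const a) hA
    rw [h] at this
    exact this.symm

theorem exists_kernel (hK : Good K) (m : Measure G) [m.IsHaarMeasure] :
    ∃ (C : ℝ≥0∞) (ψ : G → ℝ), C ≠ ⊤ ∧ Continuous ψ ∧ (∀ v, 0 ≤ ψ v ∧ ψ v ≤ 1) ∧
      (∀ v ∈ K ^ 2, ψ v = 1) ∧ (∀ v, v ∉ K ^ 3 → ψ v = 0) ∧
      ∀ M : ℕ, ∃ (J : ℕ) (w : Fin J → G) (Φ : G → Fin J → G → ℝ), (∀ j, len K (w j) ≤ M + 4) ∧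
        (∀ s j, Continuous (Φ s j)) ∧ (∀ s j v, 0 ≤ Φ s j v ∧ Φ s j v ≤ ψ v) ∧
        (∀ s, len K s ≤ M → ∀ v, ψ v ≤ ∑ j, Φ s j v) ∧
        ∀ (s h : G) (F : G → ℝ≥0∞), Measurable F →
          ∑ j, ∫⁻ v, ENNReal.ofReal (Φ s j v) * F (h * (w j)⁻¹ * v * s) ∂m
            ≤ C * ∫⁻ v in K ^ 2, F (h * v) ∂m := by
  obtain ⟨ψ, hψ1, hψ0, -, hψ⟩ := exists_continuous_one_zero_of_isCompact (hK.isCompact_pow 2)
    (isOpen_interior (s := K ^ 3)).isClosed_compl
    (disjoint_compl_right_iff_subset.2 (hK.pow_subset_interior 2))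
  obtain ⟨χ, hχ1, hχ0, hχc, hχ⟩ := exists_continuous_one_zero_of_isCompact (hK.isCompact_pow 0)
    (isOpen_interior (s := K ^ 1)).isClosed_compl
    (disjoint_compl_right_iff_subset.2 (hK.pow_subset_interior 0))
  have hψ0' : ∀ v, v ∉ K ^ 3 → ψ v = 0 := fun v hv => hψ0 fun h => hv (interior_subset h)
  have hχ0' : ∀ v, χ v ≠ 0 → len K v ≤ 1 := fun v hv => by
    by_contra hn
    exact hv (hχ0 fun h => hn (hK.len_le_iff.2 (interior_subset h)))
  have hχint : Integrable χ m := χ.continuous.integrable_of_hasCompactSupport hχc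
  have hχint' : ∀ a : G, Integrable (fun k => χ (a * k)) m := fun a => hχint.comp_mul_left a
  set a0 : ℝ := ∫ k, χ k ∂m with ha0
  have ha0pos : 0 < a0 := χ.continuous.integral_pos_of_hasCompactSupport_nonneg_nonzero hχc
    (fun k => (hχ k).1) (x := 1) (by rw [hχ1 (by simp)]; simp)
  refine ⟨m (K ^ 6) / ENNReal.ofReal a0, ψ,
    ENNReal.div_ne_top (hK.isCompact_pow 6).measure_lt_top.ne (by simpa using ha0pos),
    ψ.continuous, fun v => hψ v, fun v hv => hψ1 hv, hψ0', fun M => ?_⟩
  obtain ⟨J, w, hw, hcov⟩ := exists_fin_cover (hK.isCompact_pow (M + 4))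
    (fun a => {v | v * a⁻¹ ∈ K} ∩ {v | a⁻¹ * v ∈ K})
    fun a _ => inter_mem (hK.right_nhds a) (hK.left_nhds a)
  have hKm : MeasurableSet K := hK.cpt.isClosed.measurableSet
  obtain ⟨W, hWm, hWs, hWd, hWc⟩ := exists_disj
    (fun j => {v | v * (w j)⁻¹ ∈ K} ∩ {v | (w j)⁻¹ * v ∈ K})
    fun j => (measurable_mul_const _ hKm).inter (measurable_const_mul _ hKm)
  have hWfin : ∀ j, m (W j) < ⊤ := fun j => by
    refine lt_of_le_of_lt (measure_mono fun v hv => ?_) (hK.isCompact_pow (M + 5)).measure_lt_top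
    rw [← hK.len_le_iff]
    have h1 := hK.len_mul (w j) ((w j)⁻¹ * v)
    have h2 := hK.len_le_one.2 (hWs j hv).2
    have h3 := hK.len_le_iff.2 (hw j)
    rw [mul_inv_cancel_left] at h1
    omega
  let Φ : G → Fin J → G → ℝ := fun s j v => ψ v * ((∫ k in W j, χ ((v * s)⁻¹ * k) ∂m) / a0)
  have hI0 : ∀ a j, 0 ≤ ∫ k in W j, χ (a * k) ∂m := fun a j =>
    integral_nonneg fun k => (hχ _).1
  have hIa : ∀ a, ∫ k, χ (a * k) ∂m = a0 := fun a => integral_mul_left_eq_self (fun k => χ k) a
  have hΦc : ∀ s j, Continuous (Φ s j) := fun s j => by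
    refine ψ.continuous.mul (Continuous.div_const ?_ _)
    have : IsFiniteMeasure (m.restrict (W j)) := ⟨by simpa using hWfin j⟩
    refine continuous_of_dominated (bound := fun _ => 1) (fun v => ?_) (fun v => ?_)
      (integrable_const _) (Eventually.of_forall fun k => by fun_prop)
    · exact (by fun_prop : Continuous fun k => χ ((v * s)⁻¹ * k)).aestronglyMeasurable
    · refine Eventually.of_forall fun k => ?_
      rw [Real.norm_eq_abs, abs_of_nonneg (hχ _).1]
      exact (hχ _).2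
  refine ⟨J, w, Φ, fun j => hK.len_le_iff.2 (hw j), hΦc, fun s j v => ?_,
    fun s hs v => ?_, fun s h F hF => ?_⟩
  · refine ⟨mul_nonneg (hψ v).1 (div_nonneg (hI0 _ _) ha0pos.le), ?_⟩
    refine mul_le_of_le_one_right (hψ v).1 ((div_le_one ha0pos).2 ?_)
    rw [← hIa (v * s)⁻¹]
    exact setIntegral_le_integral (hχint' _) (Eventually.of_forall fun k => (hχ _).1)
  · by_cases hv : v ∈ K ^ 3
    · simp only [Φ]
      rw [← Finset.mul_sum, ← Finset.sum_div]
      refine le_mul_of_one_le_right (hψ v).1 ((one_le_div ha0pos).2 ?_)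
      rw [← hIa (v * s)⁻¹]
      simp only [← integral_indicator (hWm _)]
      rw [← integral_finsetSum _ fun j _ => (hχint' _).indicator (hWm j)]
      refine integral_mono (hχint' _)
        (integrable_finsetSum _ fun j _ => (hχint' _).indicator (hWm j)) fun k => ?_
      have hnn : ∀ j, 0 ≤ (W j).indicator (fun k => χ ((v * s)⁻¹ * k)) k := fun j =>
        Set.indicator_nonneg (fun k _ => (hχ _).1) _
      by_cases hk : χ ((v * s)⁻¹ * k) = 0
      · simp only [hk]
        exact Finset.sum_nonneg fun j _ => hnn j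
      · have h1 := hχ0' _ hk
        have h2 := hK.len_mul (v * s) ((v * s)⁻¹ * k)
        have h3 := hK.len_mul v s
        have h4 := hK.len_le_iff.2 hv
        rw [mul_inv_cancel_left] at h2
        obtain ⟨i, hi⟩ := hcov k (hK.len_le_iff.1 (by omega))
        obtain ⟨j, hj⟩ := hWc i k hi
        refine le_trans (le_of_eq ?_) (Finset.single_le_sum (fun j _ => hnn j) (Finset.mem_univ j))
        rw [Set.indicator_of_mem hj]
    · rw [hψ0' v hv]
      exact Finset.sum_nonneg fun j _ =>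
        mul_nonneg (hψ v).1 (div_nonneg (hI0 _ _) ha0pos.le)
  · obtain ⟨d, hd0, hdt, hd1, hd2⟩ := exists_mod m s⁻¹
    have hΦm : ∀ j, Measurable fun v => ENNReal.ofReal (Φ s j v) := fun j =>
      ENNReal.measurable_ofReal.comp (hΦc s j).measurable
    have hsub : ∀ j, d * ∫⁻ v, ENNReal.ofReal (Φ s j v) * F (h * (w j)⁻¹ * v * s) ∂m
        = ∫⁻ v, ENNReal.ofReal (Φ s j (w j * (v * s⁻¹))) * F (h * v) ∂m := by
      intro j
      rw [← lintegral_mul_left_eq_self
        (fun v => ENNReal.ofReal (Φ s j v) * F (h * (w j)⁻¹ * v * s)) (w j), ← hd1]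
      · refine lintegral_congr fun v => ?_
        congr 2
        group
      · exact ((hΦm j).comp (measurable_const_mul _)).mul (hF.comp (by fun_prop))
    have hpt : ∀ v, ∑ j, ENNReal.ofReal (Φ s j (w j * (v * s⁻¹)))
        ≤ (K ^ 2).indicator (fun _ => d * (m (K ^ 6) / ENNReal.ofReal a0)) v := by
      intro v
      have hkey : ∀ j, Φ s j (w j * (v * s⁻¹)) ≠ 0 →
          v ∈ K ^ 2 ∧ W j ⊆ {k | k * v * s⁻¹ ∈ K ^ 4} := by
        intro j hj
        have h1 : ψ (w j * (v * s⁻¹)) ≠ 0 := left_ne_zero_of_mul hj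
        have h2 : ∫ k in W j, χ ((w j * (v * s⁻¹) * s)⁻¹ * k) ∂m ≠ 0 := fun h0 => by
          apply hj
          simp only [Φ, h0, zero_div, mul_zero]
        have h3 : ∃ k ∈ W j, χ ((w j * (v * s⁻¹) * s)⁻¹ * k) ≠ 0 := by
          by_contra hn
          push Not at hn
          exact h2 (setIntegral_eq_zero_of_forall_eq_zero hn)
        obtain ⟨k, hk, hk'⟩ := h3
        have h4 := hχ0' _ hk'
        have h5 := hK.len_le_one.2 (hWs j hk).2
        have h6 : v = ((w j)⁻¹ * k) * ((w j * (v * s⁻¹) * s)⁻¹ * k)⁻¹ := by group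
        have h7 := hK.len_mul ((w j)⁻¹ * k) ((w j * (v * s⁻¹) * s)⁻¹ * k)⁻¹
        rw [← h6, hK.len_inv] at h7
        refine ⟨hK.len_le_iff.1 (by omega), fun k' hk' => ?_⟩
        have h8 : len K (w j * (v * s⁻¹)) ≤ 3 := by
          by_contra hn
          exact h1 (hψ0' _ fun h => hn (hK.len_le_iff.2 h))
        have h9 := hK.len_le_one.2 (hWs j hk').1
        have h10 := hK.len_mul (k' * (w j)⁻¹) (w j * (v * s⁻¹))
        have h11 : k' * (w j)⁻¹ * (w j * (v * s⁻¹)) = k' * v * s⁻¹ := by group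
        rw [h11] at h10
        exact hK.len_le_iff.1 (by omega)
      by_cases hv : v ∈ K ^ 2
      · rw [Set.indicator_of_mem hv]
        set Z : Set G := {k | k * v * s⁻¹ ∈ K ^ 4} with hZ
        have hZm : MeasurableSet Z :=
          (by fun_prop : Measurable fun k : G => k * v * s⁻¹) (hK.measurableSet_pow 4)
        have hterm : ∀ j, ENNReal.ofReal (Φ s j (w j * (v * s⁻¹)))
            ≤ m (W j ∩ Z) / ENNReal.ofReal a0 := by
          intro j
          by_cases hj : Φ s j (w j * (v * s⁻¹)) = 0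
          · simp [hj]
          · rw [inter_eq_left.2 (hkey j hj).2, ← ENNReal.ofReal_toReal (hWfin j).ne,
              ← ENNReal.ofReal_div_of_pos ha0pos]
            refine ENNReal.ofReal_le_ofReal ?_
            refine (mul_le_of_le_one_left (div_nonneg (hI0 _ _) ha0pos.le) (hψ _).2).trans ?_
            refine div_le_div_of_nonneg_right ?_ ha0pos.le
            have := norm_setIntegral_le_of_norm_le_const (μ := m) (s := W j) (C := 1)
              (f := fun k => χ ((w j * (v * s⁻¹) * s)⁻¹ * k)) (hWfin j) fun k _ => by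
                rw [Real.norm_eq_abs, abs_of_nonneg (hχ _).1]
                exact (hχ _).2
            rw [one_mul, Real.norm_eq_abs] at this
            exact (le_abs_self _).trans this
        have hsumZ : ∑ j, m (W j ∩ Z) ≤ m Z := by
          rw [← measure_biUnion_finset (fun i _ j _ hij =>
            (hWd i j hij).mono inter_subset_left inter_subset_left) fun j _ => (hWm j).inter hZm]
          exact measure_mono (iUnion₂_subset fun j _ => inter_subset_right)
        have hmZ : m Z ≤ d * m (K ^ 6) := by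
          obtain ⟨e, -, -, -, he⟩ := exists_mod m v
          have h1 : m Z = e * m {k | k * s⁻¹ ∈ K ^ 4} :=
            he _ (measurable_mul_const _ (hK.measurableSet_pow 4))
          rw [h1, hd2 _ (hK.measurableSet_pow 4), mul_left_comm, ← he _ (hK.measurableSet_pow 4)]
          gcongr
          intro k hk
          have h2 := hK.len_mul (k * v) v⁻¹
          have h3 := hK.len_le_iff.2 hk
          have h4 := hK.len_le_iff.2 hv
          rw [mul_inv_cancel_right, hK.len_inv] at h2
          exact hK.len_le_iff.1 (by omega)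
        calc ∑ j, ENNReal.ofReal (Φ s j (w j * (v * s⁻¹)))
            ≤ ∑ j, m (W j ∩ Z) / ENNReal.ofReal a0 := Finset.sum_le_sum fun j _ => hterm j
          _ = (∑ j, m (W j ∩ Z)) / ENNReal.ofReal a0 := by
              simp only [div_eq_mul_inv, Finset.sum_mul]
          _ ≤ d * m (K ^ 6) / ENNReal.ofReal a0 := by
              gcongr
              exact hsumZ.trans hmZ
          _ = _ := mul_div_assoc _ _ _
      · rw [Set.indicator_of_notMem hv]
        refine le_of_eq (Finset.sum_eq_zero fun j _ => ?_)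
        by_cases hj : Φ s j (w j * (v * s⁻¹)) = 0
        · simp [hj]
        · exact absurd (hkey j hj).1 hv
    have hFm : Measurable fun v => F (h * v) := hF.comp (measurable_const_mul _)
    refine (ENNReal.mul_le_mul_iff_right hd0 hdt).1 ?_
    rw [Finset.mul_sum]
    simp only [hsub]
    have hm2 : ∀ j, Measurable fun v =>
        ENNReal.ofReal (Φ s j (w j * (v * s⁻¹))) * F (h * v) := fun j =>
      ((hΦm j).comp (by fun_prop : Measurable fun v : G => w j * (v * s⁻¹))).mul hFm
    rw [← lintegral_finsetSum _ fun j _ => hm2 j, ← mul_assoc,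
      ← lintegral_const_mul _ hFm, ← lintegral_indicator (hK.measurableSet_pow 2)]
    refine lintegral_mono fun v => ?_
    rw [← Finset.sum_mul]
    refine (mul_le_mul_left (hpt v) _).trans (le_of_eq ?_)
    by_cases hv : v ∈ K ^ 2
    · simp only [Set.indicator_of_mem hv]
    · simp only [Set.indicator_of_notMem hv, zero_mul]

end Pool.Agent.P.MP_a6ddc5_al.LC
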