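import Mathlib
import Pool.Agent.P.MP_a6ddc5_al.LC.Kernel

/-!
A measurable geodesic forest with steps of length about `L`, the flow it carries from a sphere
of radius `N` toward the identity, and a bounded expanding flow on a group of large growth.
-/

set_option autoImplicit false

open Filter Topology MeasureTheory Pointwise Set
open scoped ENNReal

namespace Pool.Agent.P.MP_a6ddc5_al.LC

universe u

variable {G : Type u} [Group G]

/-- sum of `f` over the children of `g` -/
noncomputable def chi {n : ℕ} (s : Fin n → G) (P : Fin n → Set G) (f : G → ℝ≥0∞) (g : G) :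
    ℝ≥0∞ :=
  ∑ i, (P i).indicator f (g * s i)

/-- a measurable forest: `h ∈ P i` has parent `h * (s i)⁻¹`, at least `L` closer to `1` -/
structure Forest [MeasurableSpace G] (K : Set G) (L : ℕ) {n : ℕ} (s : Fin n → G)
    (P : Fin n → Set G) : Prop where
  short : ∀ i, len K (s i) ≤ L + 1
  meas : ∀ i, MeasurableSet (P i)
  disj : ∀ i j, i ≠ j → Disjoint (P i) (P j)
  step : ∀ i g, g * s i ∈ P i → len K g + L ≤ len K (g * s i)
  cover : ∀ h, L + 1 ≤ len K h → ∃ i, h ∈ P i

variable [TopologicalSpace G] [IsTopologicalGroup G] [T2Space G] [MeasurableSpace G]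
  [BorelSpace G] {K : Set G}

theorem exists_forest (hK : Good K) (L : ℕ) :
    ∃ (n : ℕ) (s : Fin n → G) (P : Fin n → Set G), Forest K L s P := by
  obtain ⟨n, s, hs, hcov⟩ := exists_fin_cover (hK.isCompact_pow (L + 1))
    (fun a => {v | v * a⁻¹ ∈ K}) fun a _ => hK.right_nhds a
  obtain ⟨P, hPm, hPs, hPd, hPc⟩ := exists_disj
    (fun i => {h | len K (h * (s i)⁻¹) + L ≤ len K h}) fun i =>
      measurableSet_le ((hK.measurable_len.comp (measurable_mul_const _)).add_const _)
        hK.measurable_len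
  refine ⟨n, s, P, fun i => hK.len_le_iff.2 (hs i), hPm, hPd, fun i g hg => ?_, fun h hh => ?_⟩
  · simpa using hPs i hg
  · obtain ⟨h', v, h1, h2, rfl⟩ := hK.exists_split h (L + 1) hh
    obtain ⟨i, hi⟩ := hcov v (hK.len_le_iff.1 h2)
    refine hPc i _ ?_
    have h3 := hK.len_mul h' (v * (s i)⁻¹)
    have h4 := hK.len_le_one.2 hi
    simp only [mem_ofPred_eq, mul_assoc]
    omega

variable {L n : ℕ} {s : Fin n → G} {P : Fin n → Set G}

omit [T2Space G] in
theorem Forest.measurable_chi (hF : Forest K L s P) {f : G → ℝ≥0∞} (hf : Measurable f) :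
    Measurable (chi s P f) :=
  Finset.measurable_sum _ fun i _ => (hf.indicator (hF.meas i)).comp (measurable_mul_const _)

omit [TopologicalSpace G] [IsTopologicalGroup G] [T2Space G] [BorelSpace G] in
theorem Forest.chi_le (hF : Forest K L s P) {f : G → ℝ≥0∞} {g : G} {b : ℝ≥0∞}
    (hb : ∀ h, len K g + L ≤ len K h → f h ≤ b) : chi s P f g ≤ n * b := by
  refine (Finset.sum_le_card_nsmul _ _ b fun i _ => ?_).trans (by simp)
  by_cases h : g * s i ∈ P i
  · rw [Set.indicator_of_mem h]
    exact hb _ (hF.step i g h)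
  · rw [Set.indicator_of_notMem h]
    exact zero_le

theorem Forest.exists_mu (hK : Good K) (hF : Forest K L s P) (hL : 1 ≤ L) (c : ℝ≥0∞) (N : ℕ) :
    ∃ μ : G → ℝ≥0∞, Measurable μ ∧
      (∀ g, μ g = {g | len K g = N}.indicator 1 g + c * chi s P μ g) ∧
      ∀ g, μ g ≤ if len K g ≤ N then (1 + c * n) ^ (N - len K g) else 0 := by
  let F : ℕ → G → ℝ≥0∞ := fun k =>
    Nat.rec (fun _ => 0) (fun _ f g => {g | len K g = N}.indicator 1 g + c * chi s P f g) k
  have hF0 : ∀ g, F 0 g = 0 := fun _ => rfl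
  have hFs : ∀ k g, F (k + 1) g = {g | len K g = N}.indicator 1 g + c * chi s P (F k) g :=
    fun _ _ => rfl
  have hm : ∀ k, Measurable (F k) := by
    intro k
    induction k with
    | zero => exact measurable_const
    | succ k ih =>
      exact (measurable_one.indicator (hK.measurable_len (measurableSet_singleton N))).add
        ((hF.measurable_chi ih).const_mul c)
  have hb : ∀ k g, F k g ≤ if len K g ≤ N then (1 + c * n) ^ (N - len K g) else 0 := by
    intro k
    induction k with
    | zero => exact fun g => zero_le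
    | succ k ih =>
      intro g
      rw [hFs]
      by_cases hg : len K g < N
      · have h1 : chi s P (F k) g ≤ n * (1 + c * n) ^ (N - len K g - 1) := by
          refine hF.chi_le fun h hh => (ih h).trans ?_
          split_ifs
          · exact pow_le_pow_right₀ le_self_add (by omega)
          · exact zero_le
        rw [Set.indicator_of_notMem (by simpa using hg.ne), zero_add, if_pos hg.le]
        calc c * chi s P (F k) g ≤ c * (n * (1 + c * n) ^ (N - len K g - 1)) := by gcongr
          _ ≤ (1 + c * n) * (1 + c * n) ^ (N - len K g - 1) := by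
              rw [← mul_assoc]
              gcongr
              exact le_add_self
          _ = _ := by
              rw [← pow_succ']
              congr 1
              omega
      · have h1 : chi s P (F k) g ≤ n * 0 := by
          refine hF.chi_le fun h hh => (ih h).trans ?_
          rw [if_neg (by omega)]
        rw [mul_zero, nonpos_iff_eq_zero] at h1
        rw [h1, mul_zero, add_zero]
        split_ifs with h2
        · have h3 : N - len K g = 0 := by omega
          rw [h3, pow_zero]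
          exact Set.indicator_le_self' (fun _ _ => zero_le) g
        · rw [Set.indicator_of_notMem]
          simp only [mem_ofPred_eq]
          omega
  have hst : ∀ k g, N < len K g + k → F (k + 1) g = F k g := by
    intro k
    induction k with
    | zero =>
      intro g hg
      have := hb 1 g
      rw [if_neg (by omega), nonpos_iff_eq_zero] at this
      exact this
    | succ k ih =>
      intro g hg
      rw [hFs (k + 1) g, hFs k g]
      congr 2
      refine Finset.sum_congr rfl fun i _ => ?_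
      by_cases h : g * s i ∈ P i
      · rw [Set.indicator_of_mem h, Set.indicator_of_mem h]
        have := hF.step i g h
        exact ih _ (by omega)
      · rw [Set.indicator_of_notMem h, Set.indicator_of_notMem h]
  exact ⟨F (N + 1), hm (N + 1),
    fun g => (hst (N + 1) g (by omega)).symm.trans (hFs (N + 1) g), hb (N + 1)⟩

/-- the weighted mass of the sphere of radius `N` arrives in the ball of radius `L` -/
theorem Forest.mass (hK : Good K) (hF : Forest K L s P) (ν : Measure G) [ν.IsMulRightInvariant]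
    {N : ℕ} (hν : ν (K ^ N) ≠ ⊤) {σ : ℝ≥0∞} (hσ : σ ≤ 1) {μ : G → ℝ≥0∞} (hμ : Measurable μ)
    (heq : ∀ g, μ g = {g | len K g = N}.indicator 1 g + σ ^ L * chi s P μ g)
    {b : ℝ≥0∞} (hb : b ≠ ⊤) (hμb : ∀ g, μ g ≤ (K ^ N).indicator (fun _ => b) g) :
    σ ^ N * ν {g | len K g = N} ≤ ∫⁻ g in K ^ L, μ g ∂ν := by
  have hω : Measurable fun g => σ ^ len K g := measurable_const.pow hK.measurable_len
  have hω1 : ∀ g, σ ^ len K g ≤ 1 := fun g => pow_le_one₀ zero_le hσ
  have hS : MeasurableSet {g | len K g = N} := hK.measurable_len (measurableSet_singleton N)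
  have hfin : ∫⁻ g in (K ^ L)ᶜ, σ ^ len K g * μ g ∂ν ≠ ⊤ := by
    refine ne_top_of_le_ne_top (ENNReal.mul_ne_top hb hν) ?_
    rw [← lintegral_indicator_const (hK.measurableSet_pow N)]
    refine (setLIntegral_le_lintegral _ _).trans (lintegral_mono fun g => ?_)
    exact (mul_le_of_le_one_left' (hω1 g)).trans (hμb g)
  have hterm : ∀ i, Measurable fun g => σ ^ len K g * (σ ^ L * (P i).indicator μ (g * s i)) :=
    fun i => hω.mul (((hμ.indicator (hF.meas i)).comp (measurable_mul_const _)).const_mul _)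
  have hterm' : ∀ i, Measurable fun h => (P i).indicator (fun h => σ ^ len K h * μ h) h :=
    fun i => (hω.mul hμ).indicator (hF.meas i)
  have h1 : ∫⁻ g in (K ^ L)ᶜ, σ ^ len K g * μ g ∂ν
      ≤ ∫⁻ g, σ ^ len K g * (σ ^ L * chi s P μ g) ∂ν := by
    calc ∫⁻ g in (K ^ L)ᶜ, σ ^ len K g * μ g ∂ν
        ≤ ∫⁻ h, ∑ i, (P i).indicator (fun h => σ ^ len K h * μ h) h ∂ν := by
          rw [← lintegral_indicator (hK.measurableSet_pow L).compl]
          refine lintegral_mono fun h => ?_
          by_cases hh : h ∈ (K ^ L)ᶜ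
          · rw [Set.indicator_of_mem hh]
            obtain ⟨i, hi⟩ := hF.cover h (by
              rw [mem_compl_iff, ← hK.len_le_iff] at hh
              omega)
            refine le_trans (le_of_eq ?_) (Finset.single_le_sum
              (f := fun i => (P i).indicator (fun h => σ ^ len K h * μ h) h)
              (fun _ _ => zero_le) (Finset.mem_univ i))
            rw [Set.indicator_of_mem hi]
          · rw [Set.indicator_of_notMem hh]
            exact zero_le
      _ = ∑ i, ∫⁻ g, (P i).indicator (fun h => σ ^ len K h * μ h) (g * s i) ∂ν := by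
          rw [lintegral_finsetSum _ fun i _ => hterm' i]
          exact Finset.sum_congr rfl fun i _ => (lintegral_mul_right_eq_self _ (s i)).symm
      _ ≤ ∑ i, ∫⁻ g, σ ^ len K g * (σ ^ L * (P i).indicator μ (g * s i)) ∂ν := by
          refine Finset.sum_le_sum fun i _ => lintegral_mono fun g => ?_
          by_cases h : g * s i ∈ P i
          · rw [Set.indicator_of_mem h, Set.indicator_of_mem h, ← mul_assoc, ← pow_add]
            exact mul_le_mul_left (pow_le_pow_right_of_le_one' hσ (hF.step i g h)) _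
          · rw [Set.indicator_of_notMem h]
            exact zero_le
      _ = _ := by
          rw [← lintegral_finsetSum _ fun i _ => hterm i]
          refine lintegral_congr fun g => ?_
          simp only [chi, Finset.mul_sum]
  have h2 : ∫⁻ g, σ ^ len K g * μ g ∂ν = σ ^ N * ν {g | len K g = N}
      + ∫⁻ g, σ ^ len K g * (σ ^ L * chi s P μ g) ∂ν := by
    rw [← lintegral_indicator_const hS, ← lintegral_add_left (measurable_const.indicator hS)]
    refine lintegral_congr fun g => ?_
    conv_lhs => rw [heq g, mul_add]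
    congr 1
    by_cases hg : g ∈ {g | len K g = N}
    · rw [Set.indicator_of_mem hg, Set.indicator_of_mem hg, Pi.one_apply, mul_one, hg]
    · rw [Set.indicator_of_notMem hg, Set.indicator_of_notMem hg, mul_zero]
  rw [← lintegral_add_compl _ (hK.measurableSet_pow L)] at h2
  have h3 : σ ^ N * ν {g | len K g = N} ≤ ∫⁻ g in K ^ L, σ ^ len K g * μ g ∂ν := by
    refine (ENNReal.add_le_add_iff_right hfin).1 ?_
    rw [h2]
    gcongr
  exact h3.trans (lintegral_mono fun g => mul_le_of_le_one_left' (hω1 g))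

omit [T2Space G] [BorelSpace G] in
theorem exists_shell (hK : Good K) (m : Measure G) [m.IsHaarMeasure] {t : ℝ} (ht : 1 < t)
    (hgr : ¬∃ A : ℝ, ∀ n, (m (K ^ n)).toReal ≤ A * t ^ n) (N0 : ℕ) {R : ℝ≥0∞} (hR : R ≠ ⊤) :
    ∃ N, N0 ≤ N ∧ R ≤ (ENNReal.ofReal t)⁻¹ ^ N * m {g | len K g = N} := by
  by_contra hn
  push Not at hn
  have ht0 : 0 < t := by linarith
  have hfin : ∀ k, m (K ^ k) ≠ ⊤ := fun k => (hK.isCompact_pow k).measure_lt_top.ne
  have hsh : ∀ N, N0 ≤ N → m {g | len K g = N} ≤ ENNReal.ofReal (R.toReal * t ^ N) := by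
    intro N hN
    have h1 := (hn N hN).le
    have h2 : ENNReal.ofReal t ^ N * (ENNReal.ofReal t)⁻¹ ^ N = 1 := by
      rw [← mul_pow, ENNReal.mul_inv_cancel (by simpa using ht0) ENNReal.ofReal_ne_top, one_pow]
    rw [ENNReal.ofReal_mul ENNReal.toReal_nonneg, ENNReal.ofReal_toReal hR,
      ENNReal.ofReal_pow ht0.le, mul_comm, ← one_mul (m _), ← h2, mul_assoc]
    gcongr
  have hR0 : 0 ≤ R.toReal := ENNReal.toReal_nonneg
  have hm0 : 0 ≤ (m (K ^ N0)).toReal := ENNReal.toReal_nonneg
  have hq : 0 ≤ R.toReal * t / (t - 1) := div_nonneg (by positivity) (by linarith)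
  refine hgr ⟨(m (K ^ N0)).toReal + R.toReal * t / (t - 1), fun k => ?_⟩
  have hsmall : ∀ k, k ≤ N0 →
      (m (K ^ k)).toReal ≤ ((m (K ^ N0)).toReal + R.toReal * t / (t - 1)) * t ^ k := by
    intro k hk
    have h1 := ENNReal.toReal_mono (hfin N0) (measure_mono (μ := m) (hK.mono hk))
    have h2 : 1 ≤ t ^ k := one_le_pow₀ ht.le
    nlinarith
  induction k with
  | zero => exact hsmall 0 (Nat.zero_le _)
  | succ k ih =>
    by_cases hk : k + 1 ≤ N0
    · exact hsmall _ hk
    · have h1 : m (K ^ (k + 1)) ≤ m (K ^ k) + ENNReal.ofReal (R.toReal * t ^ (k + 1)) := by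
        refine le_trans (measure_mono fun g hg => ?_)
          ((measure_union_le _ _).trans (add_le_add le_rfl (hsh (k + 1) (by omega))))
        rw [← hK.len_le_iff] at hg
        rw [mem_union, ← hK.len_le_iff, mem_ofPred_eq]
        omega
      have h2 := ENNReal.toReal_mono (ENNReal.add_ne_top.2 ⟨hfin k, ENNReal.ofReal_ne_top⟩) h1
      rw [ENNReal.toReal_add (hfin k) ENNReal.ofReal_ne_top,
        ENNReal.toReal_ofReal (by positivity)] at h2
      have h3 : R.toReal * t / (t - 1) * (t - 1) = R.toReal * t :=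
        div_mul_cancel₀ _ (by linarith)
      have h4 : 0 < t ^ k := by positivity
      have h5 : 0 ≤ (m (K ^ N0)).toReal * ((t - 1) * t ^ k) :=
        mul_nonneg hm0 (mul_nonneg (by linarith) h4.le)
      have h6 : R.toReal * t / (t - 1) * (t - 1) * t ^ k = R.toReal * t * t ^ k := by rw [h3]
      rw [pow_succ t] at h2 ⊢
      nlinarith

variable [SecondCountableTopology G] [LocallyCompactSpace G]

/-- a normalised flow that expands on the ball of radius `R`, with a modulus of continuity that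
does not depend on `R` -/
theorem exists_approx (hK : Good K) (m : Measure G) [m.IsHaarMeasure] {t : ℝ} (ht : 1 < t)
    (hgr : ¬∃ A : ℝ, ∀ n, (m (K ^ n)).toReal ≤ A * t ^ n) (hF : Forest K L s P) (hL : 1 ≤ L)
    {C : ℝ≥0∞} (hC : C ≠ ⊤) {ψ : G → ℝ} (hψc : Continuous ψ) (hψ : ∀ v, 0 ≤ ψ v ∧ ψ v ≤ 1)
    (hψ1 : ∀ v ∈ K ^ 2, ψ v = 1) (hψ0 : ∀ v, v ∉ K ^ 3 → ψ v = 0)
    {J : ℕ} {w : Fin J → G} {Φ : G → Fin J → G → ℝ} (hΦc : ∀ s j, Continuous (Φ s j))
    (hΦ : ∀ s j v, 0 ≤ Φ s j v ∧ Φ s j v ≤ ψ v)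
    (hΦs : ∀ s, len K s ≤ L + 1 → ∀ v, ψ v ≤ ∑ j, Φ s j v)
    (hker : ∀ (s h : G) (F : G → ℝ≥0∞), Measurable F →
      ∑ j, ∫⁻ v, ENNReal.ofReal (Φ s j v) * F (h * (w j)⁻¹ * v * s) ∂m
        ≤ C * ∫⁻ v in K ^ 2, F (h * v) ∂m)
    {q : ℕ} {b : Fin q → G} (hb : ∀ v ∈ K ^ 4, ∃ k, (b k)⁻¹ * v ∈ K) (R : ℕ) :
    ∃ x : G × Fin J → ℝ, (∀ p, 0 ≤ x p ∧ x p ≤ 1) ∧ 1 / 2 ≤ ∑ j, x (1, j) ∧
      (∀ h, len K h ≤ R → ∑ j, x (h * (w j)⁻¹, j) ≤ C.toReal * t⁻¹ ^ L * ∑ j, x (h, j)) ∧
      ∀ ε, 0 ≤ ε → ∀ a : G,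
        (∀ i j v, Φ (s i) j (a⁻¹ * v) ≤ Φ (s i) j v + (K ^ 4).indicator (fun _ => ε) v) →
        ∀ g j, x (g * a, j) ≤ x (g, j) + ε * q := by
  have ht0 : 0 < t := by linarith
  have hfin : ∀ k, m (K ^ k) ≠ ⊤ := fun k => (hK.isCompact_pow k).measure_lt_top.ne
  have hpos : ∀ k, m (K ^ (k + 1)) ≠ 0 := fun k =>
    (Measure.measure_pos_of_mem_nhds m (mem_of_superset hK.nhd (by
      simpa using hK.mono (Nat.le_add_left 1 k)))).ne'
  have hmeas := hK.measurableSet_pow
  have hν : ∀ k, m.inv (K ^ k) = m (K ^ k) := fun k => by rw [Measure.inv_apply, hK.pow_symm]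
  set σ : ℝ≥0∞ := (ENNReal.ofReal t)⁻¹ with hσ
  have hσ1 : σ ≤ 1 := ENNReal.inv_le_one.2 (ENNReal.one_le_ofReal.2 ht.le)
  have hc1 : σ ^ L ≤ 1 := pow_le_one₀ zero_le hσ1
  have hct : σ ^ L ≠ ⊤ := ne_top_of_le_ne_top ENNReal.one_ne_top hc1
  set D : ℝ≥0∞ := 1 + σ ^ L * n with hD
  have hD1 : 1 ≤ D := le_self_add
  have hDt : D ≠ ⊤ := ENNReal.add_ne_top.2
    ⟨ENNReal.one_ne_top, ENNReal.mul_ne_top hct (ENNReal.natCast_ne_top n)⟩
  have hZt : ∀ k, m (K ^ 3) * (n * D ^ k) ≠ ⊤ := fun k => ENNReal.mul_ne_top (hfin 3)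
    (ENNReal.mul_ne_top (ENNReal.natCast_ne_top n) (ENNReal.pow_ne_top hDt))
  set Z : ℝ≥0∞ := m (K ^ 3) * (n * D ^ (R + 5)) with hZ
  have hZ1 : Z * 2 + 1 ≠ ⊤ :=
    ENNReal.add_ne_top.2 ⟨ENNReal.mul_ne_top (hZt _) (by simp), ENNReal.one_ne_top⟩
  obtain ⟨N, hLN, hN⟩ := exists_shell hK m ht hgr (L + 1)
    (ENNReal.div_ne_top (ENNReal.mul_ne_top (hfin (L + 2)) hZ1) (hpos 1))
  obtain ⟨μ, hμ, heq, hμb⟩ := hF.exists_mu hK hL (σ ^ L) N
  have hμD : ∀ g k, N - len K g ≤ k → μ g ≤ D ^ k := fun g k hk => by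
    refine (hμb g).trans ?_
    split_ifs
    · exact pow_le_pow_right₀ hD1 hk
    · exact zero_le
  have heq' : ∀ g, len K g < N → μ g = σ ^ L * chi s P μ g := fun g hg => by
    rw [heq g, Set.indicator_of_notMem (by simpa using hg.ne), zero_add]
  have hT := hF.measurable_chi hμ
  have hTg : ∀ g, Measurable fun v => chi s P μ (g * v) := fun g =>
    hT.comp (measurable_const_mul g)
  have hFi : ∀ i, Measurable ((P i).indicator μ) := fun i => hμ.indicator (hF.meas i)
  have hFg : ∀ i g, Measurable fun v => (P i).indicator μ (g * v * s i) := fun i g =>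
    (hFi i).comp (by fun_prop)
  have hΦm : ∀ i j, Measurable fun v => ENNReal.ofReal (Φ (s i) j v) := fun i j =>
    ENNReal.measurable_ofReal.comp (hΦc _ j).measurable
  have hψm : Measurable fun v => ENNReal.ofReal (ψ v) :=
    ENNReal.measurable_ofReal.comp hψc.measurable
  have hΦF : ∀ i j g, Measurable fun v =>
      ENNReal.ofReal (Φ (s i) j v) * (P i).indicator μ (g * v * s i) := fun i j g =>
    (hΦm i j).mul (hFg i g)
  have hψF : ∀ i g, Measurable fun v =>
      ENNReal.ofReal (ψ v) * (P i).indicator μ (g * v * s i) := fun i g => hψm.mul (hFg i g)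
  let X : G → Fin J → ℝ≥0∞ := fun g j =>
    ∑ i, ∫⁻ v, ENNReal.ofReal (Φ (s i) j v) * (P i).indicator μ (g * v * s i) ∂m
  let O : G → ℝ≥0∞ := fun g => ∫⁻ v, ENNReal.ofReal (ψ v) * chi s P μ (g * v) ∂m
  have hO : ∀ g, O g = ∑ i, ∫⁻ v, ENNReal.ofReal (ψ v) * (P i).indicator μ (g * v * s i) ∂m := by
    intro g
    rw [← lintegral_finsetSum _ fun i _ => hψF i g]
    simp only [O, chi, Finset.mul_sum]
  have hXO : ∀ g j, X g j ≤ O g := fun g j => by
    rw [hO]
    refine Finset.sum_le_sum fun i _ => lintegral_mono fun v => ?_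
    exact mul_le_mul_left (ENNReal.ofReal_le_ofReal (hΦ _ j v).2) _
  have hOX : ∀ g, O g ≤ ∑ j, X g j := fun g => by
    rw [hO, Finset.sum_comm]
    refine Finset.sum_le_sum fun i _ => ?_
    rw [← lintegral_finsetSum _ fun j _ => hΦF i j g]
    refine lintegral_mono fun v => ?_
    rw [← Finset.sum_mul, ← ENNReal.ofReal_sum_of_nonneg fun j _ => (hΦ _ j v).1]
    exact mul_le_mul_left (ENNReal.ofReal_le_ofReal (hΦs _ (hF.short i) v)) _
  have hK2 : ∀ g, ∫⁻ v in K ^ 2, chi s P μ (g * v) ∂m ≤ O g := fun g => by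
    rw [← lintegral_indicator (hmeas 2)]
    refine lintegral_mono fun v => ?_
    by_cases hv : v ∈ K ^ 2
    · rw [Set.indicator_of_mem hv, hψ1 v hv, ENNReal.ofReal_one, one_mul]
    · rw [Set.indicator_of_notMem hv]
      exact zero_le
  have hin : ∀ h, len K h + 2 < N → ∑ j, X (h * (w j)⁻¹) j ≤ C * σ ^ L * ∑ j, X h j := by
    intro h hh
    calc ∑ j, X (h * (w j)⁻¹) j
        ≤ ∑ i, C * ∫⁻ v in K ^ 2, (P i).indicator μ (h * v) ∂m := by
          rw [Finset.sum_comm]
          exact Finset.sum_le_sum fun i _ => hker (s i) h _ (hFi i)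
      _ = C * ∫⁻ v in K ^ 2, ∑ i, (P i).indicator μ (h * v) ∂m := by
          rw [← Finset.mul_sum]
          congr 1
          exact (lintegral_finsetSum _ fun i _ => (hFi i).comp (measurable_const_mul h)).symm
      _ ≤ C * ∫⁻ v in K ^ 2, σ ^ L * chi s P μ (h * v) ∂m := by
          refine mul_le_mul_right (setLIntegral_mono ((hTg h).const_mul _) fun v hv => ?_) _
          have h1 := hK.len_mul h v
          have h2 := hK.len_le_iff.2 hv
          rw [← heq' _ (by omega)]
          exact sum_indicator_le P hF.disj μ _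
      _ ≤ C * σ ^ L * ∑ j, X h j := by
          rw [lintegral_const_mul _ (hTg h), mul_assoc]
          gcongr
          exact (hK2 h).trans (hOX h)
  have hdepth : ∀ h k, N - len K h + 3 ≤ k → O h ≤ m (K ^ 3) * (n * D ^ k) := by
    intro h k hk
    rw [mul_comm, ← lintegral_indicator_const (hmeas 3)]
    refine lintegral_mono fun v => ?_
    by_cases hv : v ∈ K ^ 3
    · rw [Set.indicator_of_mem hv]
      refine (mul_le_of_le_one_left' (ENNReal.ofReal_le_one.2 (hψ v).2)).trans ?_
      refine hF.chi_le fun h' hh' => hμD _ _ ?_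
      have h1 := hK.len_mul (h * v) v⁻¹
      have h2 := hK.len_le_iff.2 hv
      rw [mul_inv_cancel_right, hK.len_inv] at h1
      omega
    · rw [hψ0 v hv, ENNReal.ofReal_zero, zero_mul]
      exact zero_le
  set B : ℝ≥0∞ := ⨆ g, O g with hB
  have hOB : ∀ g, O g ≤ B := fun g => le_iSup O g
  have hBt : B ≠ ⊤ :=
    ne_top_of_le_ne_top (hZt (N + 3)) (iSup_le fun g => hdepth g _ (by omega))
  have hmass : σ ^ N * m {g | len K g = N} ≤ ∫⁻ g in K ^ L, chi s P μ g ∂m.inv := by
    have h1 := hF.mass hK m.inv (by rw [hν]; exact hfin N) hσ1 hμ heq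
      (ENNReal.pow_ne_top (n := N) hDt) fun g => by
        by_cases hg : g ∈ K ^ N
        · rw [Set.indicator_of_mem hg]
          exact hμD g N (Nat.sub_le _ _)
        · refine (hμb g).trans ?_
          rw [if_neg fun h => hg (hK.len_le_iff.1 h)]
          exact zero_le
    have h2 : m.inv {g | len K g = N} = m {g | len K g = N} := by
      rw [Measure.inv_apply]
      congr 1
      ext g
      simp [hK.len_inv]
    rw [h2] at h1
    refine h1.trans (setLIntegral_mono hT fun g hg => ?_)
    have h3 := hK.len_le_iff.2 hg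
    rw [heq' g (by omega)]
    exact mul_le_of_le_one_left' hc1
  have hTon : (∫⁻ g in K ^ L, chi s P μ g ∂m.inv) * m (K ^ 2) ≤ B * m (K ^ (L + 2)) := by
    calc (∫⁻ g in K ^ L, chi s P μ g ∂m.inv) * m (K ^ 2)
        = ∫⁻ _v in K ^ 2, ∫⁻ g in K ^ L, chi s P μ g ∂m.inv ∂m := (setLIntegral_const _ _).symm
      _ ≤ ∫⁻ v in K ^ 2, ∫⁻ g in K ^ (L + 2), chi s P μ (g * v) ∂m.inv ∂m := by
          refine lintegral_mono_ae ((ae_restrict_iff' (hmeas 2)).2
            (Eventually.of_forall fun v hv => ?_))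
          rw [← lintegral_indicator (hmeas L), ← lintegral_indicator (hmeas (L + 2)),
            ← lintegral_mul_right_eq_self _ v]
          refine lintegral_mono fun g => ?_
          by_cases hg : g * v ∈ K ^ L
          · rw [Set.indicator_of_mem hg, Set.indicator_of_mem]
            have h1 := hK.len_mul (g * v) v⁻¹
            have h2 := hK.len_le_iff.2 hv
            have h3 := hK.len_le_iff.2 hg
            rw [mul_inv_cancel_right, hK.len_inv] at h1
            exact hK.len_le_iff.1 (by omega)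
          · rw [Set.indicator_of_notMem hg]
            exact zero_le
      _ = ∫⁻ g in K ^ (L + 2), ∫⁻ v in K ^ 2, chi s P μ (g * v) ∂m ∂m.inv :=
          lintegral_lintegral_swap (hT.comp (measurable_snd.mul measurable_fst)).aemeasurable
      _ ≤ ∫⁻ _g in K ^ (L + 2), B ∂m.inv := lintegral_mono fun g => (hK2 g).trans (hOB g)
      _ = B * m (K ^ (L + 2)) := by rw [setLIntegral_const, hν]
  have hZB : Z * 2 + 1 ≤ B := by
    rw [ENNReal.div_le_iff (hpos 1) (hfin 2)] at hN
    refine (ENNReal.mul_le_mul_iff_right (hpos (L + 1)) (hfin (L + 2))).1 ?_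
    rw [mul_comm _ B]
    exact hN.trans ((mul_le_mul_left hmass _).trans hTon)
  have hB0 : B ≠ 0 := fun h => by simp [h] at hZB
  obtain ⟨h0, hh0⟩ := lt_iSup_iff.1 (ENNReal.half_lt_self hB0 hBt)
  have hdeep : len K h0 + R + 2 < N := by
    by_contra hn
    have h1 : Z ≤ B / 2 :=
      (ENNReal.le_div_iff_mul_le (by simp) (by simp)).2 (le_self_add.trans hZB)
    exact absurd (hh0.trans_le (hdepth h0 (R + 5) (by omega))) (not_lt.2 h1)
  have hK4 : ∀ g, ∫⁻ v in K ^ 4, chi s P μ (g * v) ∂m ≤ q * B := fun g => by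
    have hm4 : ∀ k, Measurable ((K ^ 2).indicator fun v => chi s P μ (g * b k * v)) := fun k =>
      (hTg _).indicator (hmeas 2)
    calc ∫⁻ v in K ^ 4, chi s P μ (g * v) ∂m
        ≤ ∫⁻ v, ∑ k, ((K ^ 2).indicator fun v => chi s P μ (g * b k * v)) ((b k)⁻¹ * v) ∂m := by
          rw [← lintegral_indicator (hmeas 4)]
          refine lintegral_mono fun v => ?_
          by_cases hv : v ∈ K ^ 4
          · obtain ⟨k, hk⟩ := hb v hv
            refine le_trans (le_of_eq ?_) (Finset.single_le_sum (f := fun k =>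
              ((K ^ 2).indicator fun v => chi s P μ (g * b k * v)) ((b k)⁻¹ * v))
              (fun _ _ => zero_le) (Finset.mem_univ k))
            rw [Set.indicator_of_mem hv, Set.indicator_of_mem
              (hK.len_le_iff.1 ((hK.len_le_one.2 hk).trans one_le_two))]
            congr 1
            group
          · rw [Set.indicator_of_notMem hv]
            exact zero_le
      _ = ∑ k, ∫⁻ v in K ^ 2, chi s P μ (g * b k * v) ∂m := by
          refine (lintegral_finsetSum _ fun k _ =>
            (hm4 k).comp (measurable_const_mul (b k)⁻¹)).trans ?_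
          refine Finset.sum_congr rfl fun k _ => ?_
          rw [← lintegral_indicator (hmeas 2)]
          exact lintegral_mul_left_eq_self _ (b k)⁻¹
      _ ≤ q * B := (Finset.sum_le_card_nsmul _ _ B fun k _ => (hK2 _).trans (hOB _)).trans
          (by simp)
  have hequi : ∀ ε, 0 ≤ ε → ∀ a : G,
      (∀ i j v, Φ (s i) j (a⁻¹ * v) ≤ Φ (s i) j v + (K ^ 4).indicator (fun _ => ε) v) →
      ∀ g j, X (g * a) j ≤ X g j + ENNReal.ofReal ε * (q * B) := by
    intro ε hε a ha g j
    have hm4 : ∀ i, Measurable fun v => (K ^ 4).indicator (fun _ => ENNReal.ofReal ε) v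
        * (P i).indicator μ (g * v * s i) := fun i =>
      (measurable_const.indicator (hmeas 4)).mul (hFg i g)
    calc X (g * a) j ≤ ∑ i, (∫⁻ v, ENNReal.ofReal (Φ (s i) j v)
            * (P i).indicator μ (g * v * s i) ∂m
          + ∫⁻ v, (K ^ 4).indicator (fun _ => ENNReal.ofReal ε) v
            * (P i).indicator μ (g * v * s i) ∂m) := by
          refine Finset.sum_le_sum fun i _ => ?_
          rw [← lintegral_add_left (hΦF i j g), ← lintegral_mul_left_eq_self _ a⁻¹]
          refine lintegral_mono fun v => ?_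
          rw [← add_mul, mul_assoc g a, mul_inv_cancel_left]
          refine mul_le_mul_left ((ENNReal.ofReal_le_ofReal (ha i j v)).trans
            (ENNReal.ofReal_add_le.trans (add_le_add le_rfl (le_of_eq ?_)))) _
          by_cases hv : v ∈ K ^ 4
          · rw [Set.indicator_of_mem hv, Set.indicator_of_mem hv]
          · rw [Set.indicator_of_notMem hv, Set.indicator_of_notMem hv, ENNReal.ofReal_zero]
      _ ≤ X g j + ENNReal.ofReal ε * (q * B) := by
          rw [Finset.sum_add_distrib, ← lintegral_finsetSum _ fun i _ => hm4 i]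
          refine add_le_add le_rfl (le_trans (le_of_eq ?_) (mul_le_mul_right (hK4 g) _))
          rw [← lintegral_const_mul _ (hTg g), ← lintegral_indicator (hmeas 4)]
          refine lintegral_congr fun v => ?_
          rw [← Finset.mul_sum]
          by_cases hv : v ∈ K ^ 4
          · rw [Set.indicator_of_mem hv, Set.indicator_of_mem hv]
            rfl
          · rw [Set.indicator_of_notMem hv, Set.indicator_of_notMem hv, zero_mul]
  have hXB : ∀ g j, X g j ≤ B := fun g j => (hXO g j).trans (hOB g)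
  have hXt : ∀ g j, X g j ≠ ⊤ := fun g j => ne_top_of_le_ne_top hBt (hXB g j)
  have hSt : ∀ g, ∑ j, X g j ≠ ⊤ := fun g => ENNReal.sum_ne_top.2 fun j _ => hXt g j
  have hb0 : 0 < B.toReal := ENNReal.toReal_pos hB0 hBt
  refine ⟨fun p => (X (h0 * p.1) p.2).toReal / B.toReal, fun p => ⟨by positivity,
    (div_le_one hb0).2 (ENNReal.toReal_mono hBt (hXB _ _))⟩, ?_, fun h hh => ?_,
    fun ε hε a ha g j => ?_⟩
  · have h1 := ENNReal.toReal_mono (hSt h0) (hh0.le.trans (hOX h0))
    rw [ENNReal.toReal_div, ENNReal.toReal_sum fun j _ => hXt h0 j, ENNReal.toReal_ofNat] at h1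
    simp only [mul_one]
    rw [← Finset.sum_div, le_div_iff₀ hb0]
    linarith
  · have h1 := hK.len_mul h0 h
    have h2 := ENNReal.toReal_mono (ENNReal.mul_ne_top (ENNReal.mul_ne_top hC hct) (hSt _))
      (hin (h0 * h) (by omega))
    rw [ENNReal.toReal_mul, ENNReal.toReal_mul, ENNReal.toReal_pow, hσ, ENNReal.toReal_inv,
      ENNReal.toReal_ofReal ht0.le, ENNReal.toReal_sum fun j _ => hXt _ j,
      ENNReal.toReal_sum fun j _ => hXt _ j] at h2
    simp only [← mul_assoc]
    rw [← Finset.sum_div, ← Finset.sum_div, ← mul_div_assoc]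
    exact div_le_div_of_nonneg_right h2 hb0.le
  · have h1 : ENNReal.ofReal ε * (q * B) ≠ ⊤ := ENNReal.mul_ne_top ENNReal.ofReal_ne_top
      (ENNReal.mul_ne_top (ENNReal.natCast_ne_top q) hBt)
    have h2 := ENNReal.toReal_mono (ENNReal.add_ne_top.2 ⟨hXt _ j, h1⟩)
      (hequi ε hε a ha (h0 * g) j)
    rw [ENNReal.toReal_add (hXt _ j) h1, ENNReal.toReal_mul, ENNReal.toReal_mul,
      ENNReal.toReal_ofReal hε, ENNReal.toReal_natCast] at h2
    simp only [← mul_assoc]
    rw [div_add' _ _ _ hb0.ne']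
    exact div_le_div_of_nonneg_right (by linarith) hb0.le

end Pool.Agent.P.MP_a6ddc5_al.LC
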