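import Mathlib
import Pool.Agent.P.MP_a6ddc5_al.LC.Flow

/-!
The lower bound: a group whose cones always contain `r`-quasi-fixed vectors has growth rate at
most `r`.  The growth rate is the least displacement constant.
-/

set_option autoImplicit false

open Filter Topology MeasureTheory Pointwise Set
open scoped ENNReal

namespace Pool.Agent.P.MP_a6ddc5_al.LC

universe u

theorem exists_dom {G : Type u} {J : ℕ} (l : (G × Fin J → ℝ) →L[ℝ] ℝ) :
    ∃ (n : ℕ) (g : Fin n → G), ∀ x : G × Fin J → ℝ, (∀ p, 0 ≤ x p) →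
      |l x| ≤ ∑ i, ∑ j, x (g i, j) := by
  have hl : (l : (G × Fin J → ℝ) →ₗ[ℝ] ℝ) ∈ Submodule.span ℝ
      (Set.range fun p : G × Fin J => (LinearMap.proj p : (G × Fin J → ℝ) →ₗ[ℝ] ℝ)) :=
    (LinearMap.mem_span_iff_continuous _).2 l.continuous
  have key : ∀ l' ∈ Submodule.span ℝ
      (Set.range fun p : G × Fin J => (LinearMap.proj p : (G × Fin J → ℝ) →ₗ[ℝ] ℝ)),
      ∃ gs : List G, ∀ x : G × Fin J → ℝ, (∀ p, 0 ≤ x p) →
        |l' x| ≤ (gs.map fun g => ∑ j, x (g, j)).sum := by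
    intro l' hl'
    induction hl' using Submodule.span_induction with
    | mem l' h =>
      obtain ⟨⟨g, a⟩, rfl⟩ := h
      refine ⟨[g], fun x h1 => ?_⟩
      simp only [LinearMap.proj_apply, List.map_cons, List.map_nil, List.sum_cons,
        List.sum_nil, add_zero]
      rw [abs_of_nonneg (h1 _)]
      exact Finset.single_le_sum (f := fun a => x (g, a)) (fun a _ => h1 _) (Finset.mem_univ a)
    | zero => exact ⟨[], fun x _ => by simp⟩
    | add l1 l2 _ _ h1 h2 =>
      obtain ⟨g1, h1⟩ := h1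
      obtain ⟨g2, h2⟩ := h2
      refine ⟨g1 ++ g2, fun x hx => ?_⟩
      rw [List.map_append, List.sum_append, LinearMap.add_apply]
      exact (abs_add_le _ _).trans (add_le_add (h1 x hx) (h2 x hx))
    | smul c l1 _ h1 =>
      obtain ⟨g1, h1⟩ := h1
      obtain ⟨N, hN⟩ := exists_nat_ge |c|
      refine ⟨(List.replicate N g1).flatten, fun x hx => ?_⟩
      have hrep : (((List.replicate N g1).flatten).map fun g => ∑ j, x (g, j)).sum
          = N * (g1.map fun g => ∑ j, x (g, j)).sum := by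
        simp [List.map_flatten, List.sum_flatten]
      rw [hrep, LinearMap.smul_apply, smul_eq_mul, abs_mul]
      exact mul_le_mul hN (h1 x hx) (abs_nonneg _) (Nat.cast_nonneg N)
  obtain ⟨gs, hgs⟩ := key _ hl
  refine ⟨gs.length, gs.get, fun x hx => ?_⟩
  have hsum : ∑ i, ∑ j, x (gs.get i, j) = (gs.map fun g => ∑ j, x (g, j)).sum :=
    Fin.sum_univ_fun_getElem gs fun g => ∑ j, x (g, j)
  rw [hsum]
  exact hgs x hx

variable {G : Type u} [Group G] [TopologicalSpace G] [IsTopologicalGroup G] {K : Set G}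

/-- a bounded, uniformly continuous, strongly expanding flow has no quasi-fixed vector -/
theorem not_qfu (hK : Good K) {r κ : ℝ} (hr : 1 ≤ r) {M J : ℕ} {w : Fin J → G}
    (hw : ∀ j, len K (w j) ≤ M) (hκ : κ * r ^ M < 1) {x0 : G × Fin J → ℝ} {b : ℝ}
    (hx01 : ∀ p, 0 ≤ x0 p ∧ x0 p ≤ b) (hx0 : x0 ≠ 0)
    (hflow : ∀ h, ∑ j, x0 (h * (w j)⁻¹, j) ≤ κ * ∑ j, x0 (h, j))
    (huc : ∀ ε, 0 < ε → ∀ᶠ a in 𝓝 (1 : G), ∀ g j,
      |x0 (g * a, j) - x0 (g, j)| ≤ ε ∧ |x0 (a⁻¹ * g, j) - x0 (g, j)| ≤ ε) :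
    ¬QFU G K r := by
  intro hG
  let C : ConvexCone ℝ (G × Fin J → ℝ) :=
    { carrier := {x | (∀ p, 0 ≤ x p) ∧
        ∀ g, ∑ j, x (g * (w j)⁻¹, j) ≤ κ * ∑ j, x (g, j)}
      smul_mem' := by
        rintro c hc x ⟨h1, h2⟩
        refine ⟨fun p => mul_nonneg hc.le (h1 p), fun g => ?_⟩
        simp only [Pi.smul_apply, smul_eq_mul, ← Finset.mul_sum]
        nlinarith [h2 g]
      add_mem' := by
        rintro x ⟨h1, h2⟩ y ⟨h3, h4⟩
        refine ⟨fun p => add_nonneg (h1 p) (h3 p), fun g => ?_⟩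
        simp only [Pi.add_apply, Finset.sum_add_distrib]
        nlinarith [h2 g, h4 g] }
  have hC : ∀ x, x ∈ C ↔ (∀ p, 0 ≤ x p) ∧
      ∀ g, ∑ j, x (g * (w j)⁻¹, j) ≤ κ * ∑ j, x (g, j) := fun x => Iff.rfl
  let ρ : G →* ((G × Fin J → ℝ) →L[ℝ] (G × Fin J → ℝ)) :=
    { toFun := fun h => ContinuousLinearMap.pi fun p => ContinuousLinearMap.proj (h⁻¹ * p.1, p.2)
      map_one' := by ext x p; simp
      map_mul' := by intro a b; ext x p; simp [mul_assoc] }
  have hρ : ∀ h x p, ρ h x p = x (h⁻¹ * p.1, p.2) := fun _ _ _ => rfl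
  let φ : (G × Fin J → ℝ) →L[ℝ] ℝ := ∑ j, ContinuousLinearMap.proj (1, j)
  have hφ : ∀ g x, φ (ρ g⁻¹ x) = ∑ j, x (g, j) := by
    intro g x
    simp [φ, hρ]
  refine (hG (G × Fin J → ℝ) C ρ ?_ ?_ ?_ ?_ ?_).elim ?_
  rotate_right
  · rintro y ⟨hyC, hyne, hq⟩
    obtain ⟨h1, h2⟩ := (hC y).1 hyC
    have hstep : ∀ k : ℕ, ∀ u ∈ K ^ k, ∀ g j, y (u * g, j) ≤ r ^ k * y (g, j) := by
      intro k
      induction k with
      | zero =>
        intro u hu g j
        rw [pow_zero, Set.mem_one] at hu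
        simp [hu]
      | succ k ih =>
        intro u hu g j
        rw [pow_succ'] at hu
        obtain ⟨a, ha, v, hv, rfl⟩ := hu
        have h3 := ((hC _).1 (hq a⁻¹ (by rw [← hK.symm]; exact Set.inv_mem_inv.2 ha))).1
          (v * g, j)
        simp only [Pi.sub_apply, Pi.smul_apply, smul_eq_mul, hρ, inv_inv] at h3
        have h4 := mul_le_mul_of_nonneg_left (ih v hv g j) (zero_le_one.trans hr)
        simp only [mul_assoc a]
        rw [pow_succ', mul_assoc r]
        linarith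
    have hs : 0 ≤ ∑ j, y (1, j) := Finset.sum_nonneg fun j _ => h1 _
    have h3 : ∑ j, y (1, j) ≤ r ^ M * ∑ j, y (1 * (w j)⁻¹, j) := by
      rw [Finset.mul_sum]
      refine Finset.sum_le_sum fun j _ => ?_
      simpa using hstep M (w j) (hK.len_le_iff.1 (hw j)) (w j)⁻¹ j
    have h4 := mul_le_mul_of_nonneg_left (h2 1) (by positivity : 0 ≤ r ^ M)
    have hs0 : ∑ j, y (1, j) = 0 := by nlinarith
    rw [Finset.sum_eq_zero_iff_of_nonneg fun j _ => h1 _] at hs0
    apply hyne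
    funext p
    obtain ⟨g, j⟩ := p
    have h5 := hstep _ g (hK.mem_len g) 1 j
    rw [hs0 j (Finset.mem_univ j), mul_zero, mul_one] at h5
    exact le_antisymm h5 (h1 _)
  · ext x
    simp only [Set.mem_inter_iff, Set.mem_neg, SetLike.mem_coe, Set.mem_singleton_iff, hC]
    constructor
    · rintro ⟨⟨h1, -⟩, ⟨h2, -⟩⟩
      funext p
      have := h2 p
      simp only [Pi.neg_apply] at this
      exact le_antisymm (by simpa using this) (h1 p)
    · rintro rfl
      simp
  · have hu : wU (G × Fin J → ℝ) = (inferInstance : UniformSpace (G × Fin J → ℝ)) := wU_pi _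
    rw [hu]
    apply IsClosed.isComplete
    have : (C : Set (G × Fin J → ℝ)) = (⋂ p, {x | 0 ≤ x p}) ∩
        ⋂ g, {x | ∑ j, x (g * (w j)⁻¹, j) ≤ κ * ∑ j, x (g, j)} := by
      ext x
      simp [hC]
    rw [this]
    exact (isClosed_iInter fun p => isClosed_le continuous_const (continuous_apply p)).inter
      (isClosed_iInter fun g => isClosed_le (by fun_prop) (by fun_prop))
  · intro h x hx
    rw [hC] at hx ⊢
    refine ⟨fun p => hx.1 _, fun g => ?_⟩
    simpa [hρ, mul_assoc] using hx.2 (h⁻¹ * g)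
  · refine ⟨x0, ⟨fun p => (hx01 p).1, hflow⟩, hx0, ?_, fun V hV => ?_⟩
    · rw [Bornology.isVonNBounded_pi_iff]
      intro p
      rw [NormedSpace.isVonNBounded_iff]
      refine (Metric.isBounded_Icc (0 : ℝ) b).subset ?_
      rintro _ ⟨_, ⟨g, rfl⟩, rfl⟩
      exact hx01 _
    · rw [nhds_pi, Filter.mem_pi] at hV
      obtain ⟨I, hI, T, hT, hTV⟩ := hV
      have h1 : ∀ p ∈ I, ∀ᶠ a in 𝓝 (1 : G), ∀ g,
          (ρ (a * g) x0 - ρ g x0) p ∈ T p ∧ (ρ (g * a) x0 - ρ g x0) p ∈ T p := by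
        rintro ⟨h, j⟩ _
        obtain ⟨ε, hε, hεT⟩ := Metric.nhds_basis_closedBall.mem_iff.1 (hT (h, j))
        have h2 : Tendsto (fun a : G => h⁻¹ * a⁻¹ * h) (𝓝 1) (𝓝 1) := by
          have : Continuous fun a : G => h⁻¹ * a⁻¹ * h := by fun_prop
          simpa using this.tendsto 1
        filter_upwards [huc ε hε, h2.eventually (huc ε hε)] with a ha ha' g
        simp only [Pi.sub_apply, hρ]
        refine ⟨hεT ?_, hεT ?_⟩
        · have h3 : (a * g)⁻¹ * h = g⁻¹ * h * (h⁻¹ * a⁻¹ * h) := by group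
          rw [h3]
          simpa [Real.dist_eq] using (ha' (g⁻¹ * h) j).1
        · have h3 : (g * a)⁻¹ * h = a⁻¹ * (g⁻¹ * h) := by group
          rw [h3]
          simpa [Real.dist_eq] using (ha (g⁻¹ * h) j).2
      exact ⟨_, (eventually_all_finite hI).2 h1, fun a ha g =>
        ⟨hTV fun p hp => (ha p hp g).1, hTV fun p hp => (ha p hp g).2⟩⟩
  · refine ⟨φ, fun l => ?_⟩
    obtain ⟨n, g, hg⟩ := exists_dom l
    refine ⟨n, g, fun x hx => ?_⟩
    simp only [hφ]
    have := abs_le.1 (hg x ((hC x).1 hx).1)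
    exact ⟨this.2, by linarith [this.1]⟩

variable [T2Space G] [LocallyCompactSpace G] [SecondCountableTopology G]
  [MeasurableSpace G] [BorelSpace G]

theorem exists_flow (hK : Good K) (m : Measure G) [m.IsHaarMeasure] {t : ℝ} (ht : 1 < t)
    (hgr : ¬∃ A : ℝ, ∀ n, (m (K ^ n)).toReal ≤ A * t ^ n) :
    ∃ C : ℝ, ∀ L, 1 ≤ L → ∃ (J : ℕ) (w : Fin J → G) (x : G × Fin J → ℝ),
      (∀ j, len K (w j) ≤ L + 5) ∧ (∀ p, 0 ≤ x p ∧ x p ≤ 1) ∧ 1 / 2 ≤ ∑ j, x (1, j) ∧
      (∀ h, ∑ j, x (h * (w j)⁻¹, j) ≤ C * t⁻¹ ^ L * ∑ j, x (h, j)) ∧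
      ∀ ε, 0 < ε → ∀ᶠ a in 𝓝 (1 : G), ∀ g j, |x (g * a, j) - x (g, j)| ≤ ε := by
  obtain ⟨C, ψ, hC, hψc, hψ, hψ1, hψ0, hM⟩ := exists_kernel hK m
  refine ⟨C.toReal, fun L hL => ?_⟩
  obtain ⟨J, w, Φ, hw, hΦc, hΦ, hΦs, hker⟩ := hM (L + 1)
  obtain ⟨n, s, P, hF⟩ := exists_forest hK L
  obtain ⟨q, b, -, hb⟩ := exists_fin_cover (hK.isCompact_pow 4)
    (fun a => {v | a⁻¹ * v ∈ K}) fun a _ => hK.left_nhds a
  choose X hX01 hX1 hXf hXe using
    exists_approx hK m ht hgr hF hL hC hψc hψ hψ1 hψ0 hΦc hΦ hΦs hker hb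
  let 𝒰 : Ultrafilter ℕ := hyperfilter ℕ
  have h𝒰 : (𝒰 : Filter ℕ) ≤ atTop := hyperfilter_le_cofinite.trans_eq Nat.cofinite_eq_atTop
  have hlim : ∀ p, ∃ a, Tendsto (fun R => X R p) 𝒰 (𝓝 a) := fun p => by
    obtain ⟨a, -, ha⟩ := (isCompact_Icc (a := (0 : ℝ)) (b := 1)).ultrafilter_le_nhds
      (𝒰.map fun R => X R p) (by
        rw [le_principal_iff]
        exact Filter.mem_map.2 (Eventually.of_forall fun R => hX01 R p))
    exact ⟨a, ha⟩
  choose x hx using hlim
  refine ⟨J, w, x, hw, fun p => ⟨ge_of_tendsto' (hx p) fun R => (hX01 R p).1,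
    le_of_tendsto' (hx p) fun R => (hX01 R p).2⟩,
    ge_of_tendsto' (tendsto_finsetSum _ fun j _ => hx (1, j)) hX1, fun h => ?_,
    fun ε hε => ?_⟩
  · refine le_of_tendsto_of_tendsto (tendsto_finsetSum _ fun j _ => hx _)
      ((tendsto_finsetSum _ fun j _ => hx (h, j)).const_mul _) ?_
    filter_upwards [h𝒰 (eventually_ge_atTop (len K h))] with R hR
    exact hXf R h hR
  · have hε' : 0 < ε / (q + 1) := by positivity
    have hq : ε / (q + 1) * q ≤ ε := by
      rw [div_mul_eq_mul_div, div_le_iff₀ (by positivity)]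
      nlinarith
    have h1 : ∀ᶠ a in 𝓝 (1 : G), ∀ g j, x (g * a, j) ≤ x (g, j) + ε := by
      have h2 : ∀ᶠ a in 𝓝 (1 : G), ∀ i j v, |Φ (s i) j (a⁻¹ * v) - Φ (s i) j v|
          ≤ (K ^ 4).indicator (fun _ => ε / (q + 1)) v :=
        eventually_all.2 fun i => eventually_all.2 fun j => hK.unif (hΦc _ j)
          (fun v hv => le_antisymm ((hΦ _ j v).2.trans_eq (hψ0 v hv)) (hΦ _ j v).1) hε'
      filter_upwards [h2] with a ha g j
      refine le_of_tendsto_of_tendsto' (hx _) ((hx (g, j)).add_const ε) fun R => ?_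
      have := hXe R _ hε'.le a (fun i j v => by linarith [(abs_le.1 (ha i j v)).2]) g j
      linarith
    have h3 : Tendsto (fun a : G => a⁻¹) (𝓝 1) (𝓝 1) := by
      simpa using continuous_inv.tendsto (1 : G)
    filter_upwards [h1, h3.eventually h1] with a ha ha' g j
    have h4 := ha' (g * a) j
    rw [mul_inv_cancel_right] at h4
    exact abs_le.2 ⟨by linarith, by linarith [ha g j]⟩

theorem growth_of_qfu (hK : Good K) (m : Measure G) [m.IsHaarMeasure] {r : ℝ} (hr : 1 ≤ r)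
    (hG : QFU G K r) {t : ℝ} (hrt : r < t) : ∃ A : ℝ, ∀ n, (m (K ^ n)).toReal ≤ A * t ^ n := by
  by_contra hgr
  have ht : 1 < t := hr.trans_lt hrt
  obtain ⟨C, hC⟩ := exists_flow hK m ht hgr
  have hlim : Tendsto (fun L : ℕ => C * r ^ 5 * (r / t) ^ L) atTop (𝓝 (C * r ^ 5 * 0)) :=
    (tendsto_pow_atTop_nhds_zero_of_lt_one (by positivity)
      ((div_lt_one (by positivity)).2 hrt)).const_mul _
  obtain ⟨L, hL1, hL⟩ := ((hlim.eventually (gt_mem_nhds (a := 1) (by simp))).and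
    (eventually_ge_atTop 1)).exists
  obtain ⟨J, w, x, hw, hx01, hx1, hflow, huc⟩ := hC L hL
  obtain ⟨-, ψ, -, hψc, hψ, hψ1, hψ0, -⟩ := exists_kernel hK m
  have hψs : HasCompactSupport ψ := HasCompactSupport.intro (hK.isCompact_pow 3) hψ0
  have hψi : Integrable ψ m := hψc.integrable_of_hasCompactSupport hψs
  have hxc : ∀ j, Continuous fun g => x (g, j) := fun j => by
    rw [continuous_iff_continuousAt]
    intro g
    rw [ContinuousAt, Metric.tendsto_nhds]
    intro ε hε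
    have h2 : Tendsto (fun a : G => g⁻¹ * a) (𝓝 g) (𝓝 1) := by
      have : Continuous fun a : G => g⁻¹ * a := by fun_prop
      simpa using this.tendsto g
    filter_upwards [h2.eventually (huc (ε / 2) (by positivity))] with a ha
    have := ha g j
    rw [mul_inv_cancel_left] at this
    rw [Real.dist_eq]
    linarith
  have hxn : ∀ p, ‖x p‖ ≤ 1 := fun p => by
    rw [Real.norm_eq_abs, abs_of_nonneg (hx01 p).1]
    exact (hx01 p).2
  have hxg : ∀ g j, Continuous fun u : G => x (u⁻¹ * g, j) := fun g j =>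
    (hxc j).comp (by fun_prop)
  have hint : ∀ f : G → ℝ, Integrable f m → ∀ g j,
      Integrable (fun u => f u * x (u⁻¹ * g, j)) m := fun f hf g j =>
    hf.mul_bdd (hxg g j).aestronglyMeasurable (Eventually.of_forall fun u => hxn _)
  set b : ℝ := ∫ u, ψ u ∂m with hb
  have hb0 : 0 ≤ b := integral_nonneg fun u => (hψ u).1
  set d : ℝ := (m (K ^ 4)).toReal with hd
  have hd0 : 0 ≤ d := ENNReal.toReal_nonneg
  let y : G × Fin J → ℝ := fun p => ∫ u, ψ u * x (u⁻¹ * p.1, p.2) ∂m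
  have hsum : ∀ v : Fin J → G, ∑ j, y (v j, j) = ∫ u, ψ u * ∑ j, x (u⁻¹ * v j, j) ∂m := by
    intro v
    rw [← integral_finsetSum _ fun j _ => hint ψ hψi (v j) j]
    simp only [Finset.mul_sum]
  have hsi : ∀ v : Fin J → G, Integrable (fun u => ψ u * ∑ j, x (u⁻¹ * v j, j)) m := by
    intro v
    simp only [Finset.mul_sum]
    exact integrable_finsetSum _ fun j _ => hint ψ hψi (v j) j
  refine not_qfu hK hr (κ := C * t⁻¹ ^ L) hw ?_ (x0 := y) (b := b) (fun p => ⟨?_, ?_⟩) ?_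
    (fun h => ?_) (fun ε hε => ?_) hG
  · refine lt_of_eq_of_lt ?_ hL1
    rw [div_eq_mul_inv, mul_pow]
    ring
  · exact integral_nonneg fun u => mul_nonneg (hψ u).1 (hx01 _).1
  · exact integral_mono (hint ψ hψi _ _) hψi fun u => mul_le_of_le_one_right (hψ u).1 (hx01 _).2
  · intro h0
    have h1 := hsum fun _ => 1
    have h2 : 0 < ∫ u, ψ u * ∑ j, x (u⁻¹ * 1, j) ∂m := by
      refine (hψc.mul (continuous_finsetSum _ fun j _ => hxg 1 j)
        ).integral_pos_of_hasCompactSupport_nonneg_nonzero hψs.mul_right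
        (fun u => mul_nonneg (hψ u).1 (Finset.sum_nonneg fun j _ => (hx01 _).1)) (x := 1) ?_
      have h3 := hψ1 1 (hK.mono (Nat.zero_le 2) (by simp))
      simp only [h3, inv_one, one_mul]
      linarith
    rw [← h1, h0] at h2
    simp at h2
  · rw [hsum, hsum fun _ => h, ← integral_const_mul]
    refine integral_mono (hsi _) ((hsi fun _ => h).const_mul _) fun u => ?_
    have := mul_le_mul_of_nonneg_left (hflow (u⁻¹ * h)) (hψ u).1
    simp only [← mul_assoc] at this ⊢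
    linarith
  · have hε1 : 0 < ε / (b + 1) := by positivity
    have hε2 : 0 < ε / (d + 1) := by positivity
    filter_upwards [huc _ hε1, hK.unif hψc hψ0 hε2] with a ha ha' g j
    constructor
    · simp only [y]
      rw [← integral_sub (hint ψ hψi _ _) (hint ψ hψi _ _), ← Real.norm_eq_abs]
      refine (norm_integral_le_of_norm_le (hψi.mul_const (ε / (b + 1)))
        (Eventually.of_forall fun u => ?_)).trans ?_
      · rw [← mul_sub, norm_mul, Real.norm_eq_abs, abs_of_nonneg (hψ u).1, ← mul_assoc]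
        exact mul_le_mul_of_nonneg_left (ha _ j) (hψ u).1
      · rw [integral_mul_const, ← hb, ← mul_div_assoc, div_le_iff₀ (by positivity)]
        nlinarith
    · have h1 : y (a⁻¹ * g, j) = ∫ u, ψ (a⁻¹ * u) * x (u⁻¹ * g, j) ∂m := by
        rw [← integral_mul_left_eq_self _ a]
        refine integral_congr_ae (Eventually.of_forall fun u => ?_)
        simp only [inv_mul_cancel_left, mul_inv_rev, mul_assoc]
      rw [h1]
      simp only [y]
      rw [← integral_sub (hint _ (hψi.comp_mul_left a⁻¹) _ _) (hint ψ hψi _ _),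
        ← Real.norm_eq_abs]
      have hI : Integrable ((K ^ 4).indicator fun _ => ε / (d + 1)) m :=
        (integrable_indicator_iff (hK.measurableSet_pow 4)).2
          (integrableOn_const (hK.isCompact_pow 4).measure_lt_top.ne)
      refine (norm_integral_le_of_norm_le hI (Eventually.of_forall fun u => ?_)).trans ?_
      · rw [← sub_mul, norm_mul]
        exact (mul_le_of_le_one_right (norm_nonneg _) (hxn _)).trans (ha' u)
      · rw [integral_indicator_const _ (hK.measurableSet_pow 4), smul_eq_mul, Measure.real, ← hd,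
          ← mul_div_assoc, div_le_iff₀ (by positivity)]
        nlinarith

omit [LocallyCompactSpace G] [SecondCountableTopology G] [T2Space G] [BorelSpace G] in
theorem limsup_le_iff (hK : Good K) (m : Measure G) [m.IsHaarMeasure] {r : ℝ} (hr : 1 ≤ r) :
    limsup (fun n : ℕ => m (K ^ n) ^ (1 / (n : ℝ))) atTop ≤ ENNReal.ofReal r ↔
      ∀ s, r < s → ∃ A : ℝ, ∀ n, (m (K ^ n)).toReal ≤ A * s ^ n := by
  have hfin : ∀ k, m (K ^ k) ≠ ⊤ := fun k => (hK.isCompact_pow k).measure_lt_top.ne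
  constructor
  · intro h s hs
    have hs1 : 1 ≤ s := by linarith
    obtain ⟨N, hN⟩ := eventually_atTop.1 (eventually_lt_of_limsup_lt
      (h.trans_lt ((ENNReal.ofReal_lt_ofReal_iff (by linarith)).2 hs)))
    refine ⟨(m (K ^ (N + 1))).toReal + 1, fun n => ?_⟩
    have h1 : 1 ≤ s ^ n := one_le_pow₀ hs1
    have h2 : 0 ≤ (m (K ^ (N + 1))).toReal := ENNReal.toReal_nonneg
    by_cases hn : n ≤ N + 1
    · have h3 := ENNReal.toReal_mono (hfin _) (measure_mono (μ := m) (hK.mono hn))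
      nlinarith
    · have hn0 : n ≠ 0 := by omega
      have h3 := pow_le_pow_left' (hN n (by omega)).le n
      rw [one_div, ENNReal.rpow_inv_natCast_pow hn0, ← ENNReal.ofReal_pow (by linarith)] at h3
      have h4 := ENNReal.toReal_le_of_le_ofReal (by linarith) h3
      nlinarith
  · intro h
    refine le_of_forall_gt_imp_ge_of_dense fun c hc => ?_
    rcases eq_or_ne c ⊤ with rfl | hct
    · exact le_top
    have h1 : r < c.toReal := (ENNReal.ofReal_lt_iff_lt_toReal (by linarith) hct).1 hc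
    obtain ⟨s, hs1, hs2⟩ := exists_between h1
    obtain ⟨A, hA⟩ := h s hs1
    have hc0 : 0 < c.toReal := by linarith
    have hlim : Tendsto (fun n : ℕ => A * (s / c.toReal) ^ n) atTop (𝓝 (A * 0)) :=
      (tendsto_pow_atTop_nhds_zero_of_lt_one (div_nonneg (by linarith) hc0.le)
        ((div_lt_one hc0).2 hs2)).const_mul _
    refine limsup_le_of_le (h := ?_)
    filter_upwards [hlim.eventually (gt_mem_nhds (a := 1) (by simp)), eventually_ne_atTop 0]
      with n hn hn0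
    have h2 : m (K ^ n) ≤ c ^ n := by
      rw [← ENNReal.toReal_le_toReal (hfin n) (ENNReal.pow_ne_top hct), ENNReal.toReal_pow]
      rw [div_pow, ← mul_div_assoc, div_lt_one (by positivity)] at hn
      exact (hA n).trans hn.le
    calc m (K ^ n) ^ (1 / (n : ℝ)) ≤ (c ^ n) ^ (1 / (n : ℝ)) :=
          ENNReal.rpow_le_rpow h2 (by positivity)
      _ = c := by rw [one_div, ENNReal.pow_rpow_inv_natCast hn0]

omit [LocallyCompactSpace G] [SecondCountableTopology G] [T2Space G] [MeasurableSpace G]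
  [BorelSpace G] [IsTopologicalGroup G] in
theorem good_of_closure (hc : IsCompact K) (hs : K⁻¹ = K) (hn : K ∈ 𝓝 (1 : G))
    (hg : Subgroup.closure K = ⊤) : Good K := by
  refine ⟨hc, hs, hn, fun g => ?_⟩
  have hmem : g ∈ Subgroup.closure K := by rw [hg]; trivial
  induction hmem using Subgroup.closure_induction with
  | mem a ha => exact ⟨1, by rwa [pow_one]⟩
  | one => exact ⟨0, by simp⟩
  | mul a b _ _ ha hb =>
    obtain ⟨i, hi⟩ := ha
    obtain ⟨j, hj⟩ := hb
    exact ⟨i + j, by rw [pow_add]; exact Set.mul_mem_mul hi hj⟩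
  | inv a _ ha =>
    obtain ⟨i, hi⟩ := ha
    exact ⟨i, by rw [← hs, _root_.inv_pow]; exact Set.inv_mem_inv.2 hi⟩

omit [LocallyCompactSpace G] [SecondCountableTopology G] [T2Space G] [MeasurableSpace G]
  [BorelSpace G] [IsTopologicalGroup G] in
/-- a vector of a proper cone that is `1`-quasi-fixed is fixed -/
theorem fixed_of_quasi (hK : Good K) {E : Type u} [AddCommGroup E] [Module ℝ E]
    [TopologicalSpace E] [ContinuousAdd E] {C : ConvexCone ℝ E} {ρ : G →* (E →L[ℝ] E)}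
    (hprop : (C : Set E) ∩ (-(C : Set E)) = {0}) (hinv : ∀ g : G, ∀ x ∈ C, ρ g x ∈ C) {y : E}
    (hy : ∀ k ∈ K, (1 : ℝ) • y - ρ k y ∈ C) (g : G) : ρ g y = y := by
  have hk : ∀ k ∈ K, ρ k y = y := by
    intro k hk
    have h1 := hy k hk
    have h2 := hinv k _ (hy k⁻¹ (by rw [← hK.symm]; exact Set.inv_mem_inv.2 hk))
    have h3 : ρ k (ρ k⁻¹ y) = y := by
      rw [← mul_apply_eq_comp, ← map_mul, mul_inv_cancel, map_one]
      rfl
    rw [one_smul] at h1
    rw [one_smul, map_sub, h3] at h2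
    have h4 : y - ρ k y ∈ (C : Set E) ∩ (-(C : Set E)) := ⟨h1, by simpa using h2⟩
    rw [hprop] at h4
    exact (sub_eq_zero.1 h4).symm
  obtain ⟨n, hn⟩ := hK.gen g
  induction n generalizing g with
  | zero =>
    rw [pow_zero, Set.mem_one] at hn
    rw [hn, map_one]
    rfl
  | succ n ih =>
    rw [pow_succ] at hn
    obtain ⟨a, ha, k, hk', rfl⟩ := hn
    simp only [map_mul, mul_apply_eq_comp, hk k hk', ih a ha]

theorem tfae (hK : Good K) (m : Measure G) [m.IsHaarMeasure] {r : ℝ} (hr : 1 ≤ r) :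
    (limsup (fun n : ℕ => m (K ^ n) ^ (1 / (n : ℝ))) atTop ≤ ENNReal.ofReal r → QF G K r) ∧
    (QFU G K r → limsup (fun n : ℕ => m (K ^ n) ^ (1 / (n : ℝ))) atTop ≤ ENNReal.ofReal r) :=
  ⟨fun h => qf_of_growth hK m hr ((limsup_le_iff hK m hr).1 h),
    fun h => (limsup_le_iff hK m hr).2 fun _ hs => growth_of_qfu hK m hr h hs⟩

end Pool.Agent.P.MP_a6ddc5_al.LC
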